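import Pool.Agent.UC.Win

/-! The window rule with leaves (MP_99e1f5_lc, wave 7). -/

open MeasureTheory Filter Topology Set

namespace UC2

open UC UC.WinAux

/-- The window rule: `Z` is a union of connected components on which `G` is the graph of the
acyclic function `f`. Leaves are allowed. -/
theorem win2 (X : Type*) [MeasurableSpace X] [StandardBorelSpace X] (G : EG X) (q : ℕ) (κ : X → ℕ)
    (hκ : Measurable κ) (hκq : ∀ x, κ x < q) (hκp : ∀ x y, G.Adj x y → κ x ≠ κ y)
    (Z : Set X) (f : X → X) (hZ : MeasurableSet Z) (hf : Measurable f)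
    (hadj : ∀ x ∈ Z, G.Adj x (f x)) (hfZ : ∀ x ∈ Z, f x ∈ Z)
    (hch : ∀ x ∈ Z, ∀ z, G.Adj x z → z ≠ f x → z ∈ Z ∧ f z = x)
    (hnb : ∀ x ∈ Z, f (f x) ≠ x) :
    ∃ c : X → Bool, Measurable c ∧ ∀ x ∈ Z, G.dg x ≤ 2 * G.cnt x (fun y => c y ≠ c x) := by
  classical
  let e : X → ℝ := embeddingReal X
  have he : Measurable e := measurable_embeddingReal X
  have hei : Function.Injective e := (measurableEmbedding_embeddingReal X).injective
  let R : Set X := {x | κ x < κ (f x) ∧ κ (f (f x)) < κ (f x)}
  have hR : MeasurableSet R := (measurableSet_lt hκ (hκ.comp hf)).inter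
    (measurableSet_lt (hκ.comp (hf.comp hf)) (hκ.comp hf))
  let p : X → ℕ → Prop := fun x k => f^[k + 1] x ∈ R ∨ ∀ m, f^[m + 1] x ∉ R
  have hp : ∀ x, ∃ k, p x k := by
    intro x
    by_cases h : ∃ m, f^[m + 1] x ∈ R
    · obtain ⟨m, hm⟩ := h
      exact ⟨m, Or.inl hm⟩
    · push Not at h
      exact ⟨0, Or.inr h⟩
  have hit : ∀ k, Measurable (f^[k]) := fun k => hf.iterate k
  have hpm : ∀ k, MeasurableSet {x | p x k} := by
    intro k
    have h1 : {x | p x k} = (f^[k + 1]) ⁻¹' R ∪ ⋂ m, ((f^[m + 1]) ⁻¹' R)ᶜ := by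
      ext x
      simp [p]
    rw [h1]
    exact (hit _ hR).union (MeasurableSet.iInter fun m => (hit _ hR).compl)
  let N : X → ℕ := fun x => Nat.find (hp x)
  have hN : Measurable N := measurable_find hp hpm
  let σ : X → ℕ := fun w => G.cnt (f w) (fun y => (y ≠ f (f w) ∧ G.dg y ≠ 1) ∧ e y < e w)
  have hσ : Measurable σ := by
    refine G.measurable_cnt_prop f hf (fun w y => (y ≠ f (f w) ∧ G.dg y ≠ 1) ∧ e y < e w)
      (fun i => ?_)
    have h1 : {w | (G.nb i (f w) ≠ f (f w) ∧ G.dg (G.nb i (f w)) ≠ 1) ∧ e (G.nb i (f w)) < e w} =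
        ({w | e (G.nb i (f w)) = e (f (f w))}ᶜ ∩ {w | G.dg (G.nb i (f w)) = 1}ᶜ) ∩
          {w | e (G.nb i (f w)) < e w} := by
      ext w
      simp [hei.eq_iff]
    rw [h1]
    have m1 : Measurable (fun w => e (G.nb i (f w))) := he.comp ((G.nb_meas i).comp hf)
    have m2 : Measurable (fun w => G.dg (G.nb i (f w))) := G.dg_meas.comp ((G.nb_meas i).comp hf)
    exact ((measurableSet_eq_fun m1 (he.comp (hf.comp hf))).compl.inter
      (measurableSet_eq_fun m2 measurable_const).compl).inter (measurableSet_lt m1 he)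
  let c : X → Bool := fun x => decide ((σ (f^[N x] x) + N x) % 2 = 1)
  have hc : Measurable c := by
    refine measurable_to_bool ?_
    have h1 : c ⁻¹' {true} = ⋃ k, {x | N x = k} ∩ {x | (σ (f^[k] x) + k) % 2 = 1} := by
      ext x
      simp [c]
    rw [h1]
    refine MeasurableSet.iUnion fun k => ?_
    refine (hN (measurableSet_singleton k)).inter ?_
    have m1 : Measurable (fun x => (σ (f^[k] x) + k) % 2) :=
      (measurable_of_countable (fun n : ℕ => (n + k) % 2)).comp (hσ.comp (hit k))
    exact m1 (measurableSet_singleton 1)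
  -- orbits
  have horb : ∀ k, ∀ x ∈ Z, f^[k] x ∈ Z := by
    intro k
    induction k with
    | zero => intro x hx; exact hx
    | succ k ih => intro x hx; rw [Function.iterate_succ_apply]; exact ih _ (hfZ x hx)
  have hhit : ∀ x ∈ Z, ∃ m, f^[m + 1] x ∈ R := by
    intro x hx
    obtain ⟨m, h1, h2⟩ := exists_peak (fun n => κ (f^[n + 1] x)) q (fun n => hκq _) (fun n => by
      have h := hκp _ _ (hadj _ (horb (n + 1) x hx))
      rw [← Function.iterate_succ_apply' f (n + 1) x] at h
      exact h)
    refine ⟨m, ?_, ?_⟩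
    · rw [← Function.iterate_succ_apply' f (m + 1) x]; exact h1
    · rw [← Function.iterate_succ_apply' f (m + 1) x,
        ← Function.iterate_succ_apply' f (m + 1 + 1) x]
      exact h2
  have hpiff : ∀ x ∈ Z, ∀ k, p x k ↔ f^[k + 1] x ∈ R := by
    intro x hx k
    constructor
    · rintro (h | h)
      · exact h
      · obtain ⟨m, hm⟩ := hhit x hx
        exact absurd hm (h m)
    · exact Or.inl
  have base : ∀ z ∈ Z, f z ∈ R → N z = 0 := by
    intro z hz hfz
    rw [Nat.find_eq_zero]
    exact Or.inl hfz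
  have step : ∀ z ∈ Z, f z ∉ R → N z = N (f z) + 1 := by
    intro z hz hfz
    rw [Nat.find_eq_iff]
    have hfzZ := hfZ z hz
    constructor
    · rw [hpiff z hz]
      have := Nat.find_spec (hp (f z))
      rw [hpiff _ hfzZ] at this
      exact this
    · intro n hn
      rw [hpiff z hz]
      cases n with
      | zero => exact hfz
      | succ n =>
        have h1 : n < Nat.find (hp (f z)) := by
          have : n + 1 < N (f z) + 1 := hn
          exact Nat.lt_of_succ_lt_succ this
        have h2 := Nat.find_min (hp (f z)) h1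
        rw [hpiff _ hfzZ] at h2
        exact h2
  have cstep : ∀ z ∈ Z, f z ∉ R → c z ≠ c (f z) := by
    intro z hz hfz
    have h1 := step z hz hfz
    have h2 : f^[N z] z = f^[N (f z)] (f z) := by rw [h1, Function.iterate_succ_apply]
    simp only [c]
    rw [h2, h1]
    intro h
    rw [decide_eq_decide] at h
    omega
  let c' : X → Bool := fun x => if G.dg x = 1 then !(c (f x)) else c x
  have hc' : Measurable c' := by
    refine Measurable.ite (measurableSet_eq_fun G.dg_meas measurable_const) ?_ hc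
    exact (measurable_of_countable (fun b : Bool => !b)).comp (hc.comp hf)
  have hc1 : ∀ x, G.dg x = 1 → c' x = !(c (f x)) := fun x h => if_pos h
  have hc2 : ∀ x, G.dg x ≠ 1 → c' x = c x := fun x h => if_neg h
  -- parents are not leaves
  have hpl : ∀ x ∈ Z, G.dg (f x) ≠ 1 := by
    intro x hx h1
    have h2 : 2 ≤ G.cnt (f x) (fun _ => True) :=
      G.cnt_two (G.adj_symm (hadj x hx)) (hadj _ (hfZ x hx)) (fun h => hnb x hx h.symm)
        trivial trivial
    have h3 := G.cnt_le (f x) (fun _ => True)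
    omega
  refine ⟨c', hc', ?_⟩
  intro x hx
  have hchild : ∀ z, G.Adj x z → z ≠ f x → z ∈ Z ∧ f z = x := hch x hx
  have hcard : G.cnt x (fun z => z = f x) + G.cnt x (fun z => ¬ z = f x) = G.dg x :=
    G.cnt_add_not x _
  have hone := cnt_eq_le_one G x (f x)
  have hfx1 : c' (f x) = c (f x) := hc2 _ (hpl x hx)
  by_cases hd1 : G.dg x = 1
  · -- leaves
    have h1 : 1 ≤ G.cnt x (fun y => c' y ≠ c' x) := by
      refine G.cnt_pos (hadj x hx) ?_
      rw [hfx1, hc1 x hd1]
      cases c (f x) <;> simp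
    omega
  have hcx : c' x = c x := hc2 x hd1
  -- leaf children
  have hleaf : ∀ z, G.Adj x z → z ≠ f x → G.dg z = 1 → c' z ≠ c' x := by
    intro z hz hzf hz1
    rw [hc1 z hz1, (hchild z hz hzf).2, hcx]
    cases c x <;> simp
  by_cases hxR : x ∈ R
  · -- `x ∈ R`
    have hfxR : f x ∉ R := by
      intro h
      have h1 := hxR.2
      have h2 := h.1
      omega
    have hpar : c' (f x) ≠ c' x := by
      rw [hfx1, hcx]
      exact (cstep x hx hfxR).symm
    have h1 : G.cnt x (fun y => c' y ≠ c' x) = G.cnt x (fun y => y = f x) +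
        G.cnt x (fun y => y ≠ f x ∧ c' y ≠ c' x) := by
      rw [← G.cnt_or_disj x _ _ (fun y _ h h' => h'.1 h)]
      refine G.cnt_congr fun y _ => ?_
      constructor
      · intro h
        by_cases hy : y = f x
        · exact Or.inl hy
        · exact Or.inr ⟨hy, h⟩
      · rintro (rfl | h)
        · exact hpar
        · exact h.2
    have h2 : 1 ≤ G.cnt x (fun y => y = f x) := G.cnt_pos (hadj x hx) rfl
    -- children: leaves and others
    have h5 : G.cnt x (fun y => y ≠ f x ∧ c' y ≠ c' x) =
        G.cnt x (fun y => y ≠ f x ∧ G.dg y = 1) +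
        G.cnt x (fun y => (y ≠ f x ∧ G.dg y ≠ 1) ∧ c y ≠ c x) := by
      rw [← G.cnt_or_disj x _ _ (fun y _ h h' => h'.1.2 h.2)]
      refine G.cnt_congr fun y hy => ?_
      constructor
      · rintro ⟨h, h'⟩
        by_cases hy1 : G.dg y = 1
        · exact Or.inl ⟨h, hy1⟩
        · refine Or.inr ⟨⟨h, hy1⟩, ?_⟩
          rw [hc2 y hy1, hcx] at h'
          exact h'
      · rintro (h | h)
        · exact ⟨h.1, hleaf y hy h.1 h.2⟩
        · refine ⟨h.1.1, ?_⟩
          rw [hc2 y h.1.2, hcx]
          exact h.2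
    have h6 : G.cnt x (fun z => ¬ z = f x) = G.cnt x (fun y => y ≠ f x ∧ G.dg y = 1) +
        G.cnt x (fun y => y ≠ f x ∧ G.dg y ≠ 1) := by
      rw [← G.cnt_or_disj x _ _ (fun y _ h h' => h'.2 h.2)]
      refine G.cnt_congr fun y _ => ?_
      tauto
    have h3 : G.cnt x (fun y => y ≠ f x ∧ G.dg y ≠ 1) / 2 ≤
        G.cnt x (fun y => (y ≠ f x ∧ G.dg y ≠ 1) ∧ c y ≠ c x) := by
      let S : Finset ℕ := (Finset.range (G.dg x)).filter
        (fun i => G.nb i x ≠ f x ∧ G.dg (G.nb i x) ≠ 1)
      have hS : S.card = G.cnt x (fun y => y ≠ f x ∧ G.dg y ≠ 1) := by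
        unfold EG.cnt
        simp only [S]
      let g : ℕ → ℝ := fun i => e (G.nb i x)
      have hg : Set.InjOn g S := by
        intro i hi j hj hij
        simp only [S, Finset.coe_filter, Finset.mem_range, Set.mem_ofPred_eq] at hi hj
        exact G.inj x i j hi.1 hj.1 (hei hij)
      have hrank : ∀ i ∈ S, σ (G.nb i x) = (S.filter (fun j => g j < g i)).card := by
        intro i hi
        simp only [S, Finset.mem_filter, Finset.mem_range] at hi
        have hfi : f (G.nb i x) = x := (hchild _ (G.adj_nb hi.1) hi.2.1).2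
        simp only [σ, hfi, EG.cnt, S, Finset.filter_filter, g]
      have hcN : ∀ i ∈ S, c (G.nb i x) = decide ((S.filter (fun j => g j < g i)).card % 2 = 1) := by
        intro i hi
        rw [← hrank i hi]
        simp only [S, Finset.mem_filter, Finset.mem_range] at hi
        have hch' := hchild _ (G.adj_nb hi.1) hi.2.1
        have hN0 : N (G.nb i x) = 0 := base _ hch'.1 (by rw [hch'.2]; exact hxR)
        simp only [c, hN0, Function.iterate_zero, id, add_zero]
      obtain ⟨ε, hε, hεc⟩ : ∃ ε < 2, ∀ n : ℕ, n % 2 = ε → decide (n % 2 = 1) ≠ c x := by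
        cases hcx : c x
        · exact ⟨1, by norm_num, fun n hn => by simp [hn]⟩
        · exact ⟨0, by norm_num, fun n hn => by simp [hn]⟩
      have h4 := half_rank S g hg ε hε
      rw [hS] at h4
      refine h4.trans ?_
      unfold EG.cnt
      apply Finset.card_le_card
      intro i hi
      have hi1 := (Finset.mem_filter.1 hi).1
      have hi2 := (Finset.mem_filter.1 hi).2
      have hi3 := Finset.mem_filter.1 hi1
      have hi4 : c (G.nb i x) ≠ c x := by
        rw [hcN i hi1]
        exact hεc _ hi2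
      simp only [Finset.mem_filter]
      exact ⟨hi3.1, hi3.2, hi4⟩
    omega
  · have h1 : G.cnt x (fun z => ¬ z = f x) ≤ G.cnt x (fun y => c' y ≠ c' x) := by
      refine G.cnt_mono fun y hy hyf => ?_
      by_cases hy1 : G.dg y = 1
      · exact hleaf y hy hyf hy1
      · obtain ⟨hyZ, hfy⟩ := hchild y hy hyf
        have := cstep y hyZ (by rw [hfy]; exact hxR)
        rw [hfy] at this
        rw [hc2 y hy1, hcx]
        exact this
    have h7 : 1 ≤ G.dg x := by
      obtain ⟨i, hi, _⟩ := hadj x hx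
      omega
    omega

end UC2
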