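import Pool.Agent.UC.Main
import Pool.Agent.UC2.Win2

/-! From a flow to an unfriendly colouring (MP_99e1f5_lc, wave 7). -/

open MeasureTheory Filter Topology Set

namespace UC2

open UC

variable {X : Type*} [MeasurableSpace X]

/-- The conditions on the flow `mm i x = m(x → nb i x)` at the vertex `x`. -/
structure FlowAt (G : EG X) (mm : ℕ → X → ℝ) (x : X) : Prop where
  nonneg : ∀ i < G.dg x, 0 ≤ mm i x
  sum : ∑ i ∈ Finset.range (G.dg x), mm i x ≤ 1
  rev : ∀ i < G.dg x, ∀ j < G.dg (G.nb i x), G.nb j (G.nb i x) = x → mm i x + mm j (G.nb i x) = 1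

theorem FlowAt.pair {G : EG X} {mm : ℕ → X → ℝ} {x : X} (h : FlowAt G mm x) {i j : ℕ}
    (hi : i < G.dg x) (hj : j < G.dg x) (hij : i ≠ j) : mm i x + mm j x ≤ 1 := by
  classical
  have h1 : ∑ k ∈ ({i, j} : Finset ℕ), mm k x ≤ ∑ k ∈ Finset.range (G.dg x), mm k x := by
    apply Finset.sum_le_sum_of_subset_of_nonneg
    · intro k hk
      simp only [Finset.mem_insert, Finset.mem_singleton] at hk
      rcases hk with rfl | rfl <;> simpa
    · intro k hk _
      exact h.nonneg k (Finset.mem_range.1 hk)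
  rw [Finset.sum_pair hij] at h1
  exact h1.trans h.sum

variable [StandardBorelSpace X]

/-- The graph induced on a measurable set. -/
theorem exists_induced (G : EG X) {C : Set X} (hC : MeasurableSet C) :
    ∃ E : EG X, ∀ x y, E.Adj x y ↔ (G.Adj x y ∧ x ∈ C ∧ y ∈ C) := by
  classical
  let G' : SimpleGraph X :=
    { Adj := fun x y => G.Adj x y ∧ x ∈ C ∧ y ∈ C
      symm := ⟨fun x y h => ⟨G.adj_symm h.1, h.2.2, h.2.1⟩⟩
      loopless := ⟨fun x h => G.adj_irrefl h.1 rfl⟩ }
  have hm : MeasurableSet {p : X × X | G'.Adj p.1 p.2} := by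
    have e : {p : X × X | G'.Adj p.1 p.2} =
        (⋃ i, ({p : X × X | i < G.dg p.1} ∩ {p : X × X | G.nb i p.1 = p.2})) ∩
          (C ×ˢ C) := by
      ext p
      simp only [mem_ofPred_eq, mem_inter_iff, mem_iUnion, mem_prod]
      rfl
    rw [e]
    refine (MeasurableSet.iUnion fun i => ?_).inter (hC.prod hC)
    exact (measurable_fst (G.measurableSet_lt_dg i)).inter
      (measurableSet_eq_fun ((G.nb_meas i).comp measurable_fst) measurable_snd)
  have hfin : ∀ x, (G'.neighborSet x).Finite ∧ (G'.neighborSet x).ncard ≤ G.D := by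
    intro x
    have hsub : G'.neighborSet x ⊆ {y | G.Adj x y ∧ True} := fun y hy => ⟨hy.1, trivial⟩
    have hf : {y | G.Adj x y ∧ True}.Finite := by
      have : {y | G.Adj x y ∧ True} ⊆ (fun i => G.nb i x) '' {i | i < G.dg x} := by
        rintro y ⟨⟨i, hi, rfl⟩, _⟩
        exact ⟨i, hi, rfl⟩
      exact ((Set.finite_lt_nat _).image _).subset this
    refine ⟨hf.subset hsub, ?_⟩
    calc (G'.neighborSet x).ncard ≤ {y | G.Adj x y ∧ True}.ncard := Set.ncard_le_ncard hsub hf
      _ = G.cnt x (fun _ => True) := G.ncard_eq x _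
      _ ≤ G.dg x := G.cnt_le x _
      _ ≤ G.D := G.dg_le x
  obtain ⟨E, hE⟩ := ln X G' hm G.D hfin
  exact ⟨E, fun x y => (hE x y).symm⟩

/-- A measured graph with a flow has a measurable unfriendly colouring. -/
theorem flow_main (G : EG X) (μ : Measure X) [IsFiniteMeasure μ] (hqi : G.QI μ)
    (mm : ℕ → X → ℝ) (hm : ∀ i, Measurable (mm i)) (hfl : ∀ᵐ x ∂μ, FlowAt G mm x) :
    ∃ c : X → Bool, Measurable c ∧
      ∀ᵐ x ∂μ, G.dg x ≤ 2 * G.cnt x (fun y => c y ≠ c x) := by
  classical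
  obtain ⟨q, κ, hκm, hκq, hκ⟩ := col X G
  obtain ⟨I, hIm, hIae, hIfl, hIinv⟩ := G.exists_invariant hqi hfl
  -- the direction
  let P : X → ℕ → Prop := fun x i => i < G.dg x ∧ 1 / 2 < mm i x
  have hPm : ∀ i, MeasurableSet {x | P x i} := fun i =>
    (G.measurableSet_lt_dg i).inter (measurableSet_lt measurable_const (hm i))
  have hex : ∀ x, ∃ i, P x i ∨ ¬ ∃ j, P x j := by
    intro x
    by_cases h : ∃ i, P x i
    · exact ⟨_, Or.inl h.choose_spec⟩
    · exact ⟨0, Or.inr h⟩
  obtain ⟨i₀, hi₀m, hi₀⟩ : ∃ k : X → ℕ, Measurable k ∧ ∀ x, P x (k x) ∨ ¬ ∃ j, P x j := by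
    refine ⟨fun x => Nat.find (hex x), ?_, fun x => Nat.find_spec (hex x)⟩
    apply measurable_find hex
    intro n
    have e : {x | P x n ∨ ¬ ∃ j, P x j} = {x | P x n} ∪ (⋃ j, {x | P x j})ᶜ := by
      ext x
      simp only [mem_ofPred_eq, mem_union, mem_compl_iff, mem_iUnion]
    rw [e]
    exact (hPm n).union (MeasurableSet.iUnion hPm).compl
  let f : X → X := fun x => G.nb (i₀ x) x
  have hf : Measurable f := meas_apply (f := fun n x => G.nb n x) (fun n => G.nb_meas n) hi₀m
  let H : Set X := I ∩ ⋃ i, {x | P x i}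
  have hH : MeasurableSet H := hIm.inter (MeasurableSet.iUnion hPm)
  have hHI : ∀ x ∈ H, x ∈ I := fun x hx => hx.1
  have hHP : ∀ x ∈ H, P x (i₀ x) := by
    intro x hx
    obtain ⟨i, hi⟩ := mem_iUnion.1 hx.2
    exact (hi₀ x).resolve_right fun h => h ⟨i, hi⟩
  have huniq : ∀ x ∈ I, ∀ i j, P x i → P x j → i = j := by
    intro x hx i j hi hj
    by_contra hij
    have := (hIfl x hx).pair hi.1 hj.1 hij
    linarith [hi.2, hj.2]
  have hadj : ∀ x ∈ H, G.Adj x (f x) := fun x hx => G.adj_nb (hHP x hx).1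
  have hfI : ∀ x ∈ H, f x ∈ I := fun x hx => hIinv x (hHI x hx) _ (hadj x hx)
  have hK : ∀ z ∈ I, ∀ j, P z j → z ∈ H ∧ f z = G.nb j z := by
    intro z hz j hj
    have hzH : z ∈ H := ⟨hz, mem_iUnion.2 ⟨j, hj⟩⟩
    refine ⟨hzH, ?_⟩
    have := huniq z hz _ _ (hHP z hzH) hj
    simp only [f]
    rw [this]
  have hK1 : ∀ x ∈ H, ∀ z, G.Adj x z → z ≠ f x → z ∈ H ∧ f z = x := by
    rintro x hx z ⟨i, hi, rfl⟩ hz
    have hne : i ≠ i₀ x := fun h => hz (by rw [h])
    have h1 := (hIfl x (hHI x hx)).pair hi (hHP x hx).1 hne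
    have h2 := (hHP x hx).2
    obtain ⟨j, hj, hjx⟩ := G.symm x i hi
    have h3 := (hIfl x (hHI x hx)).rev i hi j hj hjx
    obtain ⟨h4, h5⟩ := hK (G.nb i x) (hIinv x (hHI x hx) _ (G.adj_nb hi)) j ⟨hj, by linarith⟩
    exact ⟨h4, h5.trans hjx⟩
  have hK2 : ∀ x ∈ H, f x ∈ H → f (f x) ≠ x := by
    intro x hx hfx he
    have hi := (hHP x hx).1
    obtain ⟨j, hj, hjx⟩ := G.symm x (i₀ x) hi
    have h3 := (hIfl x (hHI x hx)).rev _ hi j hj hjx
    have h2 := (hHP x hx).2
    have h4 := hHP _ hfx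
    have h5 : i₀ (f x) = j := by
      apply G.inj (f x) _ _ h4.1 hj
      exact he.trans hjx.symm
    have h6 := h4.2
    rw [h5] at h6
    have h7 : mm j (f x) = mm j (G.nb (i₀ x) x) := rfl
    linarith
  have hK3 : ∀ x ∈ I, x ∉ H → ∀ z, G.Adj x z → z ∈ H → f z = x := by
    rintro x hx hxH z ⟨i, hi, rfl⟩ hz
    have h1 : mm i x ≤ 1 / 2 := by
      by_contra h
      exact hxH ⟨hx, mem_iUnion.2 ⟨i, hi, not_le.1 h⟩⟩
    obtain ⟨j, hj, hjx⟩ := G.symm x i hi
    have h3 := (hIfl x hx).rev i hi j hj hjx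
    have h4 := hHP _ hz
    by_cases hij : i₀ (G.nb i x) = j
    · simp only [f]
      rw [hij]
      exact hjx
    · have h5 := (hIfl _ (hHI _ hz)).pair h4.1 hj hij
      linarith [h4.2]
  -- the centre
  let C : Set X := I \ H
  have hC : MeasurableSet C := hIm.diff hH
  obtain ⟨E, hE⟩ := exists_induced G hC
  have hEqi : E.QI μ := by
    intro N hN
    refine measure_mono_null ?_ (hqi N hN)
    rintro x ⟨y, hy, hxy⟩
    exact ⟨y, hy, ((hE x y).1 hxy).1⟩
  obtain ⟨b, hbm, hb⟩ := main_EG E μ hEqi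
  have hEcnt : ∀ x ∈ C, ∀ p : X → Prop, E.cnt x p = G.cnt x (fun y => y ∈ C ∧ p y) := by
    intro x hx p
    rw [← E.ncard_eq, ← G.ncard_eq]
    congr 1
    ext y
    simp only [mem_ofPred_eq, hE x y]
    tauto
  have hK4 : ∀ x ∈ C, G.cnt x (fun y => y ∈ C) ≤ 2 := by
    intro x hx
    have hxI : x ∈ I := hx.1
    have hhalf : ∀ i < G.dg x, G.nb i x ∈ C → 1 / 2 ≤ mm i x := by
      intro i hi hiC
      obtain ⟨j, hj, hjx⟩ := G.symm x i hi
      have h3 := (hIfl x hxI).rev i hi j hj hjx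
      have h1 : mm j (G.nb i x) ≤ 1 / 2 := by
        by_contra h
        exact hiC.2 ⟨hiC.1, mem_iUnion.2 ⟨j, hj, not_le.1 h⟩⟩
      linarith
    have h1 : (1 / 2 : ℝ) * (G.cnt x (fun y => y ∈ C) : ℝ) ≤
        ∑ i ∈ Finset.range (G.dg x), mm i x := by
      have hc0 : G.cnt x (fun y => y ∈ C) =
          ((Finset.range (G.dg x)).filter (fun i => G.nb i x ∈ C)).card := by
        unfold EG.cnt
        congr 1
        ext i
        simp only [Finset.mem_filter]
      rw [hc0]
      calc (1 / 2 : ℝ) * (((Finset.range (G.dg x)).filter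
            (fun i => G.nb i x ∈ C)).card : ℝ)
          = ∑ i ∈ (Finset.range (G.dg x)).filter (fun i => G.nb i x ∈ C), (1 / 2 : ℝ) := by
            rw [Finset.sum_const, nsmul_eq_mul]; ring
        _ ≤ ∑ i ∈ (Finset.range (G.dg x)).filter (fun i => G.nb i x ∈ C), mm i x := by
            refine Finset.sum_le_sum fun i hi => ?_
            rw [Finset.mem_filter, Finset.mem_range] at hi
            exact hhalf i hi.1 hi.2
        _ ≤ _ := by
            apply Finset.sum_le_sum_of_subset_of_nonneg (Finset.filter_subset _ _)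
            intro i hi _
            exact (hIfl x hxI).nonneg i (Finset.mem_range.1 hi)
    have h2 := (hIfl x hxI).sum
    have h3 : (G.cnt x (fun y => y ∈ C) : ℝ) ≤ 2 := by linarith
    exact_mod_cast h3
  -- the part without centre
  let Z : Set X := {x | ∀ n, f^[n] x ∈ H}
  have hZm : MeasurableSet Z := by
    have : Z = ⋂ n, f^[n] ⁻¹' H := by
      ext x
      simp only [Z, mem_ofPred_eq, mem_iInter, mem_preimage]
    rw [this]
    exact MeasurableSet.iInter fun n => hf.iterate n hH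
  have hZH : ∀ x ∈ Z, x ∈ H := fun x hx => hx 0
  have hZf : ∀ x ∈ Z, f x ∈ Z := fun x hx n => by
    have := hx (n + 1)
    rwa [Function.iterate_succ_apply] at this
  have hZch : ∀ x ∈ Z, ∀ z, G.Adj x z → z ≠ f x → z ∈ Z ∧ f z = x := by
    intro x hx z hxz hz
    obtain ⟨h1, h2⟩ := hK1 x (hZH x hx) z hxz hz
    refine ⟨fun n => ?_, h2⟩
    cases n with
    | zero => exact h1
    | succ n =>
      rw [Function.iterate_succ_apply, h2]
      exact hx n
  obtain ⟨cw, hcwm, hcw⟩ := win2 X G q κ hκm hκq hκ Z f hZm hf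
    (fun x hx => hadj x (hZH x hx)) hZf hZch
    (fun x hx => hK2 x (hZH x hx) (hZH _ (hZf x hx)))
  obtain ⟨ch, hchm, hch1, hch2⟩ := exists_hair hH hf hbm
  let c : X → Bool := fun x => if x ∈ Z then cw x else ch x
  have hcZ : ∀ x ∈ Z, c x = cw x := fun x hx => if_pos hx
  have hcN : ∀ x ∉ Z, c x = ch x := fun x hx => if_neg hx
  have hcH : ∀ x ∉ H, c x = b x := fun x hx => by
    rw [hcN x (fun h => hx (hZH x h)), hch1 x hx]
  have hZ' : ∀ x ∉ Z, ∃ n, f^[n] x ∉ H := by
    intro x hx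
    by_contra h
    push Not at h
    exact hx h
  have hnZf : ∀ x ∈ H, x ∉ Z → f x ∉ Z := by
    intro x hx hxZ h
    apply hxZ
    intro n
    cases n with
    | zero => exact hx
    | succ n =>
      rw [Function.iterate_succ_apply]
      exact h n
  have hcHair : ∀ x ∈ H, x ∉ Z → c x = !(c (f x)) := by
    intro x hx hxZ
    rw [hcN x hxZ, hcN _ (hnZf x hx hxZ)]
    exact hch2 x (hZ' x hxZ) hx
  refine ⟨c, Measurable.ite hZm hcwm hchm, ?_⟩
  filter_upwards [hIae, hb] with x hxI hbx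
  by_cases hxZ : x ∈ Z
  · have h1 := hcw x hxZ
    have h2 : G.cnt x (fun y => cw y ≠ cw x) = G.cnt x (fun y => c y ≠ c x) := by
      apply G.cnt_congr
      intro y hy
      have hyZ : y ∈ Z := by
        by_cases hyf : y = f x
        · rw [hyf]
          exact hZf x hxZ
        · exact (hZch x hxZ y hy hyf).1
      rw [hcZ x hxZ, hcZ y hyZ]
    rw [h2] at h1
    exact h1
  · by_cases hxH : x ∈ H
    · have h1 : G.cnt x (fun y => c y ≠ c x) = G.dg x := by
        apply G.cnt_true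
        intro y hy
        by_cases hyf : y = f x
        · rw [hyf, hcHair x hxH hxZ]
          cases c (f x) <;> simp
        · obtain ⟨h1, h2⟩ := hK1 x hxH y hy hyf
          have hyZ : y ∉ Z := fun h => hxZ (h2 ▸ hZf y h)
          rw [hcHair y h1 hyZ, h2]
          cases c x <;> simp
      rw [h1]
      omega
    · have hxC : x ∈ C := ⟨hxI, hxH⟩
      -- split the count
      have h1 : G.cnt x (fun y => y ∉ C) + G.cnt x (fun y => y ∈ C ∧ b y ≠ b x) ≤
          G.cnt x (fun y => c y ≠ c x) := by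
        rw [← G.cnt_or_disj x _ _ (fun y _ h h' => h h'.1)]
        apply G.cnt_mono
        rintro y hy (hyC | ⟨hyC, hne⟩)
        · have hyI : y ∈ I := hIinv x hxI y hy
          have hyH : y ∈ H := by
            by_contra h
            exact hyC ⟨hyI, h⟩
          have hfy : f y = x := hK3 x hxI hxH y hy hyH
          have hyZ : y ∉ Z := fun h => hxH (hfy ▸ hZH _ (hZf y h))
          rw [hcHair y hyH hyZ, hfy]
          cases c x <;> simp
        · rw [hcH x hxH, hcH y hyC.2]
          exact hne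
      have h2 := G.cnt_add_not x (fun y => y ∈ C)
      have h3 := hK4 x hxC
      have h4 : E.dg x = G.cnt x (fun y => y ∈ C) := by
        rw [← E.cnt_true x (p := fun _ => True) (fun _ _ => trivial), hEcnt x hxC]
        apply G.cnt_congr
        intro y _
        simp
      have h5 : E.cnt x (fun y => b y ≠ b x) = G.cnt x (fun y => y ∈ C ∧ b y ≠ b x) :=
        hEcnt x hxC _
      rw [h4, h5] at hbx
      have h6 : min (G.cnt x (fun y => y ∈ C)) 4 = G.cnt x (fun y => y ∈ C) := by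
        apply min_eq_left
        omega
      rw [h6] at hbx
      omega

end UC2
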