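import Pool.Agent.UC.Main

/-! Every Borel graph of bounded degree has a Borel 2-colouring in which every vertex of positive
degree has a neighbour of the opposite colour (MP_99e1f5_lc, wave 7). -/

open MeasureTheory Filter Topology Set

namespace UC2

open UC

variable {X : Type*} [MeasurableSpace X] [StandardBorelSpace X]

theorem one_opp (G : EG X) : ∃ c : X → Bool, Measurable c ∧
    ∀ x, 1 ≤ G.dg x → ∃ y, G.Adj x y ∧ c y ≠ c x := by
  classical
  obtain ⟨q, κ, hκm, hκq, hκ⟩ := col X G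
  -- an upper neighbour
  let P : ℕ → X → Prop := fun i x => i < G.dg x ∧ κ x < κ (G.nb i x)
  have hP : ∀ i, MeasurableSet {x | P i x} := fun i =>
    (G.measurableSet_lt_dg i).inter (measurableSet_lt hκm (hκm.comp (G.nb_meas i)))
  obtain ⟨g, hgm, hg⟩ := exists_meas_select P hP
  let U : Set X := {x | ∃ i, P i x}
  have hU : MeasurableSet U := by
    have : U = ⋃ i, {x | P i x} := by
      ext x
      simp only [U, mem_ofPred_eq, mem_iUnion]
    rw [this]
    exact MeasurableSet.iUnion hP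
  let u : X → X := fun x => G.nb (g x) x
  have hu : Measurable u := meas_apply (f := fun n x => G.nb n x) (fun n => G.nb_meas n) hgm
  have huP : ∀ x ∈ U, G.Adj x (u x) ∧ κ x < κ (u x) := fun x hx =>
    ⟨G.adj_nb (hg x hx).1, (hg x hx).2⟩
  -- vertices with a child
  let W : Set X := {x | ∃ i, i < G.dg x ∧ G.nb i x ∈ U ∧ u (G.nb i x) = x}
  have hW : MeasurableSet W := by
    have : W = ⋃ i, ({x | i < G.dg x} ∩ (G.nb i ⁻¹' U ∩ {x | u (G.nb i x) = x})) := by
      ext x
      simp only [W, mem_ofPred_eq, mem_iUnion, mem_inter_iff, mem_preimage]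
    rw [this]
    refine MeasurableSet.iUnion fun i => (G.measurableSet_lt_dg i).inter ((G.nb_meas i hU).inter ?_)
    exact measurableSet_eq_fun (hu.comp (G.nb_meas i)) measurable_id
  have hWu : ∀ x ∈ U, u x ∈ W := by
    intro x hx
    obtain ⟨i, hi, hix⟩ := G.adj_symm (huP x hx).1
    exact ⟨i, hi, by rw [hix]; exact hx, by rw [hix]⟩
  -- the lonely local maxima
  let L : Set X := (Uᶜ ∩ Wᶜ) ∩ {x | 0 < G.dg x}
  have hL : MeasurableSet L := (hU.compl.inter hW.compl).inter (G.measurableSet_lt_dg 0)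
  let f : X → X := fun x => if x ∈ U then u x else G.nb 0 x
  have hf : Measurable f := Measurable.ite hU hu (G.nb_meas 0)
  have hfU : ∀ x ∈ U, f x = u x := fun x hx => if_pos hx
  have hfL : ∀ x ∈ L, f x = G.nb 0 x := fun x hx => if_neg hx.1.1
  have hLd : ∀ x ∈ L, 0 < G.dg x := fun x hx => hx.2
  have hLadj : ∀ x ∈ L, G.Adj x (f x) ∧ f x ∈ U := by
    intro x hx
    have hadj : G.Adj x (G.nb 0 x) := G.adj_nb (hLd x hx)
    rw [hfL x hx]
    refine ⟨hadj, ?_⟩
    have h1 : ¬ κ x < κ (G.nb 0 x) := fun h => hx.1.1 ⟨0, hLd x hx, h⟩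
    have h2 : κ (G.nb 0 x) < κ x :=
      lt_of_le_of_ne (not_lt.1 h1) (fun h => hκ x _ hadj h.symm)
    obtain ⟨i, hi, hix⟩ := G.adj_symm hadj
    exact ⟨i, hi, by rw [hix]; exact h2⟩
  let H : Set X := U ∪ L
  have hH : MeasurableSet H := hU.union hL
  have hUout : ∀ n, ∀ x ∈ U, q ≤ κ x + n → ∃ k, f^[k] x ∉ H := by
    intro n
    induction n with
    | zero =>
      intro x _ hq
      exact absurd (hκq x) (by omega)
    | succ n ih =>
      intro x hx hq
      have h1 := huP x hx
      by_cases h2 : u x ∈ U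
      · obtain ⟨k, hk⟩ := ih (u x) h2 (by omega)
        refine ⟨k + 1, ?_⟩
        rw [Function.iterate_succ_apply, hfU x hx]
        exact hk
      · refine ⟨1, ?_⟩
        rw [Function.iterate_one, hfU x hx]
        rintro (h | h)
        · exact h2 h
        · exact h.1.2 (hWu x hx)
  have hout : ∀ x, ∃ k, f^[k] x ∉ H := by
    intro x
    by_cases hx : x ∈ H
    · rcases hx with hx | hx
      · exact hUout q x hx (by omega)
      · obtain ⟨k, hk⟩ := hUout q (f x) (hLadj x hx).2 (by omega)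
        exact ⟨k + 1, by rw [Function.iterate_succ_apply]; exact hk⟩
    · exact ⟨0, hx⟩
  obtain ⟨c, hcm, -, hc⟩ := exists_hair hH hf (b := fun _ => false) measurable_const
  refine ⟨c, hcm, fun x hx => ?_⟩
  by_cases hxH : x ∈ H
  · refine ⟨f x, ?_, ?_⟩
    · rcases hxH with h | h
      · rw [hfU x h]
        exact (huP x h).1
      · exact (hLadj x h).1
    · rw [hc x (hout x) hxH]
      cases c (f x) <;> simp
  · have hxU : x ∉ U := fun h => hxH (Or.inl h)
    have hxW : x ∈ W := by
      by_contra h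
      exact hxH (Or.inr ⟨⟨hxU, h⟩, hx⟩)
    obtain ⟨i, hi, hiU, hix⟩ := hxW
    refine ⟨G.nb i x, G.adj_nb hi, ?_⟩
    rw [hc _ (hout _) (Or.inl hiU), hfU _ hiU, hix]
    cases c x <;> simp

end UC2
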