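import Pool.Agent.UC2.Flow
import Pool.Agent.UC2.OneOpp

/-! Borel unfriendly colourings of graphs generated by a function outside a thin core
(MP_99e1f5_lc, wave 7, Q2). -/

open MeasureTheory Filter Topology Set

namespace UC2

open UC

variable {X : Type*} [MeasurableSpace X] [StandardBorelSpace X]

theorem fun_EG (G : EG X) (C : Set X) (hC : MeasurableSet C) (f : X → X) (hf : Measurable f)
    (hcore : ∀ x ∈ C, G.cnt x (fun y => y ∈ C) ≤ G.cnt x (fun y => y ∉ C) + 2)
    (hedge : ∀ x y, G.Adj x y → ¬ (x ∈ C ∧ y ∈ C) → (x ∉ C ∧ f x = y) ∨ (y ∉ C ∧ f y = x)) :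
    ∃ c : X → Bool, Measurable c ∧ ∀ x, G.dg x ≤ 2 * G.cnt x (fun y => c y ≠ c x) := by
  classical
  let e : X → ℝ := embeddingReal X
  have he : Measurable e := measurable_embeddingReal X
  have hei : Function.Injective e := (measurableEmbedding_embeddingReal X).injective
  obtain ⟨q, κ, hκm, hκq, hκ⟩ := col X G
  obtain ⟨E, hE⟩ := exists_induced G hC
  obtain ⟨b, hbm, hb⟩ := one_opp E
  let H' : Set X := {x | x ∉ C ∧ G.Adj x (f x)}
  have hH' : MeasurableSet H' := by
    have : H' = Cᶜ ∩ ⋃ i, ({x | i < G.dg x} ∩ {x | G.nb i x = f x}) := by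
      ext x
      simp only [H', mem_ofPred_eq, mem_inter_iff, mem_compl_iff, mem_iUnion]
      rfl
    rw [this]
    exact hC.compl.inter (MeasurableSet.iUnion fun i => (G.measurableSet_lt_dg i).inter
      (measurableSet_eq_fun (G.nb_meas i) hf))
  let B : Set X := {x | (x ∈ H' ∧ f x ∈ H') ∧ (f (f x) = x ∧ e x < e (f x))}
  have hB : MeasurableSet B := by
    have : B = (H' ∩ f ⁻¹' H') ∩ ({x | f (f x) = x} ∩ {x | e x < e (f x)}) := by
      ext x
      simp only [B, mem_ofPred_eq, mem_inter_iff, mem_preimage]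
    rw [this]
    exact (hH'.inter (hf hH')).inter ((measurableSet_eq_fun (hf.comp hf) measurable_id).inter
      (measurableSet_lt he (he.comp hf)))
  let T : Set X := H' \ B
  have hT : MeasurableSet T := hH'.diff hB
  have hTC : ∀ x ∈ T, x ∉ C := fun x hx => hx.1.1
  have hTadj : ∀ x ∈ T, G.Adj x (f x) := fun x hx => hx.1.2
  -- children
  have hchild : ∀ x y, G.Adj x y → y ∉ C → f y = x → y ∈ H' := fun x y hxy hy hfy =>
    ⟨hy, by rw [hfy]; exact G.adj_symm hxy⟩
  let Z : Set X := {x | ∀ n, f^[n] x ∈ T}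
  have hZm : MeasurableSet Z := by
    have : Z = ⋂ n, f^[n] ⁻¹' T := by
      ext x
      simp only [Z, mem_ofPred_eq, mem_iInter, mem_preimage]
    rw [this]
    exact MeasurableSet.iInter fun n => hf.iterate n hT
  have hZT : ∀ x ∈ Z, x ∈ T := fun x hx => hx 0
  have hZf : ∀ x ∈ Z, f x ∈ Z := fun x hx n => by
    have := hx (n + 1)
    rwa [Function.iterate_succ_apply] at this
  have hZback : ∀ x ∈ T, f x ∈ Z → x ∈ Z := fun x hx h n => by
    cases n with
    | zero => exact hx
    | succ n =>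
      rw [Function.iterate_succ_apply]
      exact h n
  have hZnb : ∀ x ∈ Z, f (f x) ≠ x := by
    intro x hx h
    have h1 := hZT x hx
    have h2 := hZT _ (hZf x hx)
    rcases lt_trichotomy (e x) (e (f x)) with h3 | h3 | h3
    · exact h1.2 ⟨⟨h1.1, h2.1⟩, h, h3⟩
    · exact G.adj_irrefl (hTadj x h1) (hei h3).symm
    · refine h2.2 ⟨⟨h2.1, ?_⟩, ?_, ?_⟩
      · rw [h]
        exact h1.1
      · rw [h]
      · rw [h]
        exact h3
  have hZch : ∀ x ∈ Z, ∀ z, G.Adj x z → z ≠ f x → z ∈ Z ∧ f z = x := by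
    intro x hx z hxz hz
    have hxC : x ∉ C := hTC x (hZT x hx)
    rcases hedge x z hxz (fun h => hxC h.1) with h | h
    · exact absurd h.2.symm hz
    · have hzH : z ∈ H' := hchild x z hxz h.1 h.2
      have hzT : z ∈ T := by
        refine ⟨hzH, fun hzB => ?_⟩
        have h3 := hzB.2.1
        rw [h.2] at h3
        exact hz h3.symm
      exact ⟨hZback z hzT (by rw [h.2]; exact hx), h.2⟩
  obtain ⟨cw, hcwm, hcw⟩ := win2 X G q κ hκm hκq hκ Z f hZm hf
    (fun x hx => hTadj x (hZT x hx)) hZf hZch hZnb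
  obtain ⟨ch, hchm, hch1, hch2⟩ := exists_hair hT hf hbm
  let c : X → Bool := fun x => if x ∈ Z then cw x else ch x
  have hcZ : ∀ x ∈ Z, c x = cw x := fun x hx => if_pos hx
  have hcN : ∀ x ∉ Z, c x = ch x := fun x hx => if_neg hx
  have hcT : ∀ x ∉ T, c x = b x := fun x hx => by
    rw [hcN x (fun h => hx (hZT x h)), hch1 x hx]
  have hZ' : ∀ x ∉ Z, ∃ n, f^[n] x ∉ T := by
    intro x hx
    by_contra h
    push Not at h
    exact hx h
  have hcHair : ∀ x ∈ T, x ∉ Z → c x = !(c (f x)) := by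
    intro x hx hxZ
    rw [hcN x hxZ, hcN _ (fun h => hxZ (hZback x hx h))]
    exact hch2 x (hZ' x hxZ) hx
  -- an edge between a vertex of `T` outside `Z` and its parent is bichromatic
  have hpar : ∀ x ∈ T, x ∉ Z → c (f x) ≠ c x := by
    intro x hx hxZ
    rw [hcHair x hx hxZ]
    cases c (f x) <;> simp
  -- all edges outside `Z` and not inside the core are bichromatic
  have hall : ∀ x y, G.Adj x y → x ∉ Z → ¬ (x ∈ C ∧ y ∈ C) → c y ≠ c x := by
    intro x y hxy hxZ hxyC
    have key : ∀ a d : X, G.Adj a d → a ∉ Z → d ∉ Z → a ∉ C → f a = d → c d ≠ c a := by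
      intro a d had haZ hdZ haC hfa
      have haH : a ∈ H' := ⟨haC, by rw [hfa]; exact had⟩
      by_cases haB : a ∈ B
      · have h1 : f a ∈ T := by
          refine ⟨haB.1.2, fun h => ?_⟩
          have h2 := h.2.2
          rw [haB.2.1] at h2
          exact lt_asymm h2 haB.2.2
        rw [hfa] at h1
        have h2 : f d = a := by
          rw [← hfa]
          exact haB.2.1
        have h3 := hpar d h1 hdZ
        rw [h2] at h3
        exact h3.symm
      · have h1 := hpar a ⟨haH, haB⟩ haZ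
        rw [hfa] at h1
        exact h1
    have hyZ : y ∉ Z := by
      intro hy
      by_cases hxf : x = f y
      · exact hxZ (hxf ▸ hZf y hy)
      · exact hxZ (hZch y hy x (G.adj_symm hxy) hxf).1
    rcases hedge x y hxy hxyC with h | h
    · exact key x y hxy hxZ hyZ h.1 h.2
    · exact (key y x (G.adj_symm hxy) hyZ hxZ h.1 h.2).symm
  refine ⟨c, Measurable.ite hZm hcwm hchm, fun x => ?_⟩
  by_cases hxZ : x ∈ Z
  · have h1 := hcw x hxZ
    have h2 : G.cnt x (fun y => cw y ≠ cw x) = G.cnt x (fun y => c y ≠ c x) := by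
      apply G.cnt_congr
      intro y hy
      have hyZ : y ∈ Z := by
        by_cases hyf : y = f x
        · rw [hyf]
          exact hZf x hxZ
        · exact (hZch x hxZ y hy hyf).1
      rw [hcZ x hxZ, hcZ y hyZ]
    rw [h2] at h1
    exact h1
  · by_cases hxC : x ∈ C
    · have hd := G.cnt_add_not x (fun y => y ∈ C)
      have hk := hcore x hxC
      have h1 : G.cnt x (fun y => y ∉ C) + G.cnt x (fun y => y ∈ C ∧ c y ≠ c x) ≤
          G.cnt x (fun y => c y ≠ c x) := by
        rw [← G.cnt_or_disj x _ _ (fun y _ h h' => h h'.1)]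
        apply G.cnt_mono
        rintro y hy (hyC | ⟨_, hne⟩)
        · exact hall x y hy hxZ (fun h => hyC h.2)
        · exact hne
      by_cases h0 : G.cnt x (fun y => y ∈ C) = 0
      · omega
      · have h2 : E.dg x = G.cnt x (fun y => y ∈ C) := by
          rw [← E.cnt_true x (p := fun _ => True) (fun _ _ => trivial), ← E.ncard_eq,
            ← G.ncard_eq]
          congr 1
          ext y
          simp only [mem_ofPred_eq, hE x y]
          tauto
        obtain ⟨y, hy, hne⟩ := hb x (by omega)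
        obtain ⟨hxy, -, hyC⟩ := (hE x y).1 hy
        have h3 : 1 ≤ G.cnt x (fun y => y ∈ C ∧ c y ≠ c x) := by
          refine G.cnt_pos hxy ⟨hyC, ?_⟩
          rw [hcT x (fun h => hTC x h hxC), hcT y (fun h => hTC y h hyC)]
          exact hne
        omega
    · have h1 : G.cnt x (fun y => c y ≠ c x) = G.dg x :=
        G.cnt_true x (fun y hy => hall x y hy hxZ (fun h => hxC h.1))
      rw [h1]
      omega

/-- The version for simple graphs. -/
theorem fun_main (Gr : SimpleGraph X) (hG : MeasurableSet {p : X × X | Gr.Adj p.1 p.2}) (D : ℕ)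
    (hD : ∀ x, (Gr.neighborSet x).Finite ∧ (Gr.neighborSet x).ncard ≤ D)
    (C : Set X) (hC : MeasurableSet C) (f : X → X) (hf : Measurable f)
    (hcore : ∀ x ∈ C, {y | Gr.Adj x y ∧ y ∈ C}.ncard ≤ {y | Gr.Adj x y ∧ y ∉ C}.ncard + 2)
    (hedge : ∀ x y, Gr.Adj x y → ¬ (x ∈ C ∧ y ∈ C) → (x ∉ C ∧ f x = y) ∨ (y ∉ C ∧ f y = x)) :
    ∃ c : X → Bool, Measurable c ∧ ∀ x,
      (Gr.neighborSet x).ncard ≤ 2 * {y | Gr.Adj x y ∧ c y ≠ c x}.ncard := by
  obtain ⟨E, hE⟩ := ln X Gr hG D hD
  have hcn : ∀ x (p : X → Prop), {y | Gr.Adj x y ∧ p y}.ncard = E.cnt x p := by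
    intro x p
    rw [← E.ncard_eq]
    congr 1
    ext y
    simp only [mem_ofPred_eq]
    rw [hE x y]
  obtain ⟨c, hcm, hc⟩ := fun_EG E C hC f hf
    (fun x hx => by
      have := hcore x hx
      rw [hcn x (fun y => y ∈ C), hcn x (fun y => y ∉ C)] at this
      exact this)
    (fun x y hxy => hedge x y ((hE x y).2 hxy))
  refine ⟨c, hcm, fun x => ?_⟩
  have e1 : (Gr.neighborSet x).ncard = E.dg x := by
    rw [← E.cnt_true x (p := fun _ => True) (fun _ _ => trivial), ← E.ncard_eq]
    congr 1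
    ext y
    simp only [SimpleGraph.mem_neighborSet, mem_ofPred_eq, and_true]
    exact hE x y
  rw [e1, hcn x (fun y => c y ≠ c x)]
  exact hc x

end UC2
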