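import Pool.Agent.UC2.Flow

/-! Hyperfinite acyclic graphs: the flow towards the finite classes (MP_99e1f5_lc, wave 7). -/

open MeasureTheory Filter Topology Set

namespace UC2

open UC

section Tree

variable {V : Type*} {Gr : SimpleGraph V}

theorem tree_side {x y s : V} (hxy : Gr.Adj x y) (hs : Gr.Reachable x s) :
    (∃ p : Gr.Walk y s, x ∉ p.support) ∨ (∃ p : Gr.Walk x s, y ∉ p.support) := by
  classical
  obtain ⟨p, hp⟩ := hs.exists_isPath
  by_cases hy : y ∈ p.support
  · left
    refine ⟨p.dropUntil y hy, fun hx => ?_⟩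
    have h1 : p = (p.takeUntil y hy).append (p.dropUntil y hy) := (p.take_spec hy).symm
    have h2 : (p.takeUntil y hy).support ++ (p.dropUntil y hy).support.tail = p.support := by
      rw [← SimpleGraph.Walk.support_append, ← h1]
    have h3 : p.support.Nodup := hp.support_nodup
    rw [← h2, List.nodup_append] at h3
    have h4 : x ∈ (p.dropUntil y hy).support.tail := by
      rcases SimpleGraph.Walk.mem_support_iff _ |>.1 hx with h | h
      · exact absurd h hxy.ne
      · exact h
    exact h3.2.2 x (SimpleGraph.Walk.start_mem_support _) x h4 rfl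
  · exact Or.inr ⟨p, hy⟩

theorem exists_path_avoid {x y s : V} (h : ∃ p : Gr.Walk y s, x ∉ p.support) :
    ∃ p : Gr.Walk y s, p.IsPath ∧ x ∉ p.support := by
  classical
  obtain ⟨p, hp⟩ := h
  exact ⟨p.bypass, p.bypass_isPath, fun hx => hp (p.support_bypass_subset_support hx)⟩

theorem tree_excl (hac : Gr.IsAcyclic) {x y s : V} (hxy : Gr.Adj x y)
    (h1 : ∃ p : Gr.Walk y s, x ∉ p.support) (h2 : ∃ p : Gr.Walk x s, y ∉ p.support) : False := by
  obtain ⟨p, hp, hxp⟩ := exists_path_avoid h1
  obtain ⟨q, hq, hyq⟩ := exists_path_avoid h2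
  have h3 : (SimpleGraph.Walk.cons hxy p).IsPath := hp.cons hxp
  have h4 := (hac.subsingleton_path x s).elim ⟨_, h3⟩ ⟨q, hq⟩
  have h5 : SimpleGraph.Walk.cons hxy p = q := congrArg Subtype.val h4
  apply hyq
  rw [← h5, SimpleGraph.Walk.support_cons]
  exact List.mem_cons_of_mem _ (SimpleGraph.Walk.start_mem_support _)

theorem tree_uniq (hac : Gr.IsAcyclic) {x y z s : V} (hxy : Gr.Adj x y) (hxz : Gr.Adj x z)
    (h1 : ∃ p : Gr.Walk y s, x ∉ p.support) (h2 : ∃ p : Gr.Walk z s, x ∉ p.support) : y = z := by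
  obtain ⟨p, hp, hxp⟩ := exists_path_avoid h1
  obtain ⟨q, hq, hxq⟩ := exists_path_avoid h2
  have h3 : (SimpleGraph.Walk.cons hxy p).IsPath := hp.cons hxp
  have h3' : (SimpleGraph.Walk.cons hxz q).IsPath := hq.cons hxq
  have h4 := (hac.subsingleton_path x s).elim ⟨_, h3⟩ ⟨_, h3'⟩
  have h5 : SimpleGraph.Walk.cons hxy p = SimpleGraph.Walk.cons hxz q := congrArg Subtype.val h4
  have h6 := congrArg (fun r : Gr.Walk x s => r.getVert 1) h5
  simpa using h6

end Tree

variable {X : Type*} [MeasurableSpace X] (G : EG X)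

/-- the end point of the walk -/
def wk : List ℕ → X → X
  | [], x => x
  | i :: w, x => wk w (G.nb i x)

/-- the walk from `x` is valid -/
def ok : List ℕ → X → Prop
  | [], _ => True
  | i :: w, x => i < G.dg x ∧ ok w (G.nb i x)

/-- the walk from `y` is valid and avoids `x` -/
def okav : List ℕ → X → X → Prop
  | [], y, x => y ≠ x
  | i :: w, y, x => y ≠ x ∧ i < G.dg y ∧ okav w (G.nb i y) x

theorem meas_wk (w : List ℕ) : Measurable (wk G w) := by
  induction w with
  | nil => exact measurable_id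
  | cons i w ih => exact ih.comp (G.nb_meas i)

theorem meas_ok (w : List ℕ) : MeasurableSet {x | ok G w x} := by
  induction w with
  | nil =>
    have : {x : X | ok G [] x} = univ := by
      ext x
      simp [ok]
    rw [this]
    exact MeasurableSet.univ
  | cons i w ih =>
    have : {x : X | ok G (i :: w) x} = {x | i < G.dg x} ∩ G.nb i ⁻¹' {x | ok G w x} := by
      ext x
      simp [ok]
    rw [this]
    exact (G.measurableSet_lt_dg i).inter (G.nb_meas i ih)

theorem meas_okav [StandardBorelSpace X] (w : List ℕ) :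
    MeasurableSet {p : X × X | okav G w p.1 p.2} := by
  have hne : MeasurableSet {p : X × X | p.1 = p.2}ᶜ :=
    (measurableSet_eq_fun measurable_fst measurable_snd).compl
  induction w with
  | nil =>
    have : {p : X × X | okav G [] p.1 p.2} = {p : X × X | p.1 = p.2}ᶜ := by
      ext p
      simp [okav]
    rw [this]
    exact hne
  | cons i w ih =>
    have : {p : X × X | okav G (i :: w) p.1 p.2} = {p : X × X | p.1 = p.2}ᶜ ∩
        (Prod.fst ⁻¹' {x | i < G.dg x} ∩
          (fun p : X × X => (G.nb i p.1, p.2)) ⁻¹' {p : X × X | okav G w p.1 p.2}) := by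
      ext p
      simp [okav]
    rw [this]
    exact hne.inter ((measurable_fst (G.measurableSet_lt_dg i)).inter
      ((((G.nb_meas i).comp measurable_fst).prodMk measurable_snd) ih))

variable {G}

theorem reach_iff {Gr : SimpleGraph X} (hE : ∀ x y, Gr.Adj x y ↔ G.Adj x y) {x y : X} :
    Gr.Reachable x y ↔ ∃ w, ok G w x ∧ wk G w x = y := by
  constructor
  · rintro ⟨p⟩
    induction p with
    | nil => exact ⟨[], trivial, rfl⟩
    | cons h p ih =>
      obtain ⟨w, hw, hw'⟩ := ih
      obtain ⟨i, hi, rfl⟩ := (hE _ _).1 h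
      exact ⟨i :: w, ⟨hi, hw⟩, hw'⟩
  · rintro ⟨w, hw, rfl⟩
    induction w generalizing x with
    | nil => exact SimpleGraph.Reachable.refl x
    | cons i w ih =>
      exact (((hE _ _).2 (G.adj_nb hw.1)).reachable).trans (ih hw.2)

theorem av_iff {Gr : SimpleGraph X} (hE : ∀ x y, Gr.Adj x y ↔ G.Adj x y) {x y s : X} :
    (∃ p : Gr.Walk y s, x ∉ p.support) ↔ ∃ w, okav G w y x ∧ wk G w y = s := by
  constructor
  · rintro ⟨p, hp⟩
    induction p with
    | nil =>
      refine ⟨[], ?_, rfl⟩
      intro h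
      exact hp (by simp [h])
    | cons h p ih =>
      rw [SimpleGraph.Walk.support_cons, List.mem_cons, not_or] at hp
      obtain ⟨w, hw, hw'⟩ := ih hp.2
      obtain ⟨i, hi, rfl⟩ := (hE _ _).1 h
      exact ⟨i :: w, ⟨fun h => hp.1 h.symm, hi, hw⟩, hw'⟩
  · rintro ⟨w, hw, rfl⟩
    induction w generalizing y with
    | nil =>
      refine ⟨SimpleGraph.Walk.nil, ?_⟩
      intro h
      have h' : x ∈ [y] := h
      exact hw (List.mem_singleton.1 h').symm
    | cons i w ih =>
      obtain ⟨p, hp⟩ := ih hw.2.2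
      refine ⟨SimpleGraph.Walk.cons ((hE _ _).2 (G.adj_nb hw.2.1)) p, ?_⟩
      rw [SimpleGraph.Walk.support_cons, List.mem_cons, not_or]
      exact ⟨fun h => hw.1 h.symm, hp⟩

variable [StandardBorelSpace X]

theorem exists_sel {Gr : SimpleGraph X} (hE : ∀ x y, Gr.Adj x y ↔ G.Adj x y) (F : Setoid X)
    (hF : MeasurableSet {p : X × X | F p.1 p.2}) (hfin : ∀ x, {y | F x y}.Finite) :
    ∃ s : X → X, Measurable s ∧ (∀ x, Gr.Reachable x (s x)) ∧
      ∀ x y, F x y → Gr.Reachable x y → s y = s x := by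
  classical
  let e : X → ℝ := embeddingReal X
  have he : Measurable e := measurable_embeddingReal X
  have hei : Function.Injective e := (measurableEmbedding_embeddingReal X).injective
  let A : List ℕ → X → Prop := fun w x => ok G w x ∧ F x (wk G w x)
  have hA : ∀ w, MeasurableSet {x | A w x} := by
    intro w
    exact (meas_ok G w).inter ((measurable_id.prodMk (meas_wk G w)) hF)
  let P : ℕ → X → Prop := fun k x => A (Denumerable.ofNat (List ℕ) k) x ∧
    ∀ w', A w' x → e (wk G (Denumerable.ofNat (List ℕ) k) x) ≤ e (wk G w' x)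
  have hP : ∀ k, MeasurableSet {x | P k x} := by
    intro k
    have h1 : {x | P k x} = {x | A (Denumerable.ofNat (List ℕ) k) x} ∩
        ⋂ w', ({x | A w' x}ᶜ ∪
          {x | e (wk G (Denumerable.ofNat (List ℕ) k) x) ≤ e (wk G w' x)}) := by
      ext x
      simp only [P, mem_ofPred_eq, mem_inter_iff, mem_iInter, mem_union, mem_compl_iff,
        imp_iff_not_or]
    rw [h1]
    exact (hA _).inter (MeasurableSet.iInter fun w' => (hA w').compl.union
      (measurableSet_le (he.comp (meas_wk G _)) (he.comp (meas_wk G w'))))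
  obtain ⟨g, hg, hgP⟩ := exists_meas_select P hP
  let s : X → X := fun x => wk G (Denumerable.ofNat (List ℕ) (g x)) x
  have hs : Measurable s :=
    meas_apply (f := fun k x => wk G (Denumerable.ofNat (List ℕ) k) x) (fun k => meas_wk G _) hg
  have hex : ∀ x, ∃ k, P k x := by
    intro x
    have hf : {y | F x y ∧ Gr.Reachable x y}.Finite := (hfin x).subset fun y hy => hy.1
    obtain ⟨y, hy, hmin⟩ := Set.exists_min_image {y | F x y ∧ Gr.Reachable x y} e hf
      ⟨x, F.refl x, SimpleGraph.Reachable.refl x⟩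
    obtain ⟨w, hw, hwy⟩ := (reach_iff hE).1 hy.2
    refine ⟨Encodable.encode w, ?_⟩
    have h1 : Denumerable.ofNat (List ℕ) (Encodable.encode w) = w := Denumerable.ofNat_encode w
    simp only [P, h1]
    refine ⟨⟨hw, ?_⟩, ?_⟩
    · rw [hwy]
      exact hy.1
    · intro w' hw'
      rw [hwy]
      exact hmin _ ⟨hw'.2, (reach_iff hE).2 ⟨w', hw'.1, rfl⟩⟩
  have hsP : ∀ x, F x (s x) ∧ Gr.Reachable x (s x) ∧
      ∀ y, F x y → Gr.Reachable x y → e (s x) ≤ e y := by
    intro x
    obtain ⟨h1, h2⟩ := hgP x (hex x)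
    refine ⟨h1.2, (reach_iff hE).2 ⟨_, h1.1, rfl⟩, ?_⟩
    intro y hy hr
    obtain ⟨w, hw, rfl⟩ := (reach_iff hE).1 hr
    exact h2 w ⟨hw, hy⟩
  refine ⟨s, hs, fun x => (hsP x).2.1, ?_⟩
  intro x y hxy hr
  apply hei
  apply le_antisymm
  · exact (hsP y).2.2 _ (F.trans (F.symm hxy) (hsP x).1) (hr.symm.trans (hsP x).2.1)
  · exact (hsP x).2.2 _ (F.trans hxy (hsP y).1) (hr.trans (hsP y).2.1)


/-- A hyperfinite acyclic measured graph of bounded degree has a measurable unfriendly
colouring. -/
theorem hyp_main (Gr : SimpleGraph X) (hG : MeasurableSet {p : X × X | Gr.Adj p.1 p.2}) (D : ℕ)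
    (hD : ∀ x, (Gr.neighborSet x).Finite ∧ (Gr.neighborSet x).ncard ≤ D)
    (μ : Measure X) [IsFiniteMeasure μ]
    (hqi : ∀ N : Set X, MeasurableSet N → μ N = 0 → μ {x | ∃ y ∈ N, Gr.Reachable x y} = 0)
    (hac : Gr.IsAcyclic) (F : ℕ → Setoid X)
    (hFm : ∀ n, MeasurableSet {p : X × X | F n p.1 p.2}) (hFfin : ∀ n x, {y | F n x y}.Finite)
    (hFmono : ∀ n x y, F n x y → F (n + 1) x y)
    (hex : ∀ᵐ x ∂μ, ∀ y, Gr.Reachable x y → ∃ n, F n x y) :
    ∃ c : X → Bool, Measurable c ∧ ∀ᵐ x ∂μ,
      (Gr.neighborSet x).ncard ≤ 2 * {y | Gr.Adj x y ∧ c y ≠ c x}.ncard := by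
  classical
  obtain ⟨E, hE⟩ := ln X Gr hG D hD
  have hqi' : E.QI μ := by
    intro N hN
    obtain ⟨N', hN', hN'm, hN'0⟩ := exists_measurable_superset_of_null hN
    refine measure_mono_null ?_ (hqi N' hN'm hN'0)
    rintro x ⟨y, hy, hxy⟩
    exact ⟨y, hN' hy, ((hE x y).2 hxy).reachable⟩
  choose s hsm hsr hsF using fun n => exists_sel hE (F n) (hFm n) (hFfin n)
  -- the flow of the `n`-th selector
  let Q : ℕ → ℕ → X → Prop := fun n i x => i < E.dg x ∧
    ∃ w, okav E w (E.nb i x) x ∧ wk E w (E.nb i x) = s n x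
  have hQm : ∀ n i, MeasurableSet {x | Q n i x} := by
    intro n i
    have h1 : {x | Q n i x} = {x | i < E.dg x} ∩
        ⋃ w, ((fun x => (E.nb i x, x)) ⁻¹' {p : X × X | okav E w p.1 p.2} ∩
          {x | wk E w (E.nb i x) = s n x}) := by
      ext x
      simp only [Q, mem_ofPred_eq, mem_inter_iff, mem_iUnion, mem_preimage]
    rw [h1]
    refine (E.measurableSet_lt_dg i).inter (MeasurableSet.iUnion fun w => ?_)
    exact (((E.nb_meas i).prodMk measurable_id) (meas_okav E w)).inter
      (measurableSet_eq_fun ((meas_wk E w).comp (E.nb_meas i)) (hsm n))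
  let u : ℕ → ℕ → X → ℝ := fun n i x => if Q n i x then 1 else 0
  have hum : ∀ n i, Measurable (u n i) := fun n i =>
    Measurable.ite (hQm n i) measurable_const measurable_const
  have hu0 : ∀ n i x, 0 ≤ u n i x := fun n i x => by
    simp only [u]
    split_ifs <;> norm_num
  have hu1 : ∀ n i x, |u n i x| ≤ 1 := fun n i x => by
    simp only [u]
    split_ifs <;> norm_num
  have hQuniq : ∀ n x i j, Q n i x → Q n j x → i = j := by
    intro n x i j hi hj
    apply E.inj x i j hi.1 hj.1
    exact tree_uniq hac ((hE _ _).2 (E.adj_nb hi.1)) ((hE _ _).2 (E.adj_nb hj.1))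
      ((av_iff hE).2 hi.2) ((av_iff hE).2 hj.2)
  have hsum : ∀ n x, ∑ i ∈ Finset.range (E.dg x), u n i x ≤ 1 := by
    intro n x
    simp only [u]
    rw [← Finset.sum_filter, Finset.sum_const, nsmul_eq_mul, mul_one]
    have h1 : ((Finset.range (E.dg x)).filter (fun i => Q n i x)).card ≤ 1 := by
      rw [Finset.card_le_one]
      intro a ha b hb
      exact hQuniq n x a b (Finset.mem_filter.1 ha).2 (Finset.mem_filter.1 hb).2
    exact_mod_cast h1
  have hrev : ∀ n x i j, i < E.dg x → j < E.dg (E.nb i x) → E.nb j (E.nb i x) = x →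
      F n x (E.nb i x) → u n i x + u n j (E.nb i x) = 1 := by
    intro n x i j hi hj hjx hF
    have hadj : Gr.Adj x (E.nb i x) := (hE _ _).2 (E.adj_nb hi)
    have hs : s n (E.nb i x) = s n x := hsF n x _ hF hadj.reachable
    have e1 : Q n i x ↔ ∃ p : Gr.Walk (E.nb i x) (s n x), x ∉ p.support := by
      rw [av_iff hE]
      exact ⟨fun h => h.2, fun h => ⟨hi, h⟩⟩
    have e2 : Q n j (E.nb i x) ↔ ∃ p : Gr.Walk x (s n x), E.nb i x ∉ p.support := by
      rw [av_iff hE]
      simp only [Q, hjx, hs]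
      exact ⟨fun h => h.2, fun h => ⟨hj, h⟩⟩
    have h1 := tree_side hadj (hsr n x)
    have h2 : ¬ (Q n i x ∧ Q n j (E.nb i x)) := fun h =>
      tree_excl hac hadj (e1.1 h.1) (e2.1 h.2)
    rw [← e1, ← e2] at h1
    simp only [u]
    rcases h1 with h | h
    · rw [if_pos h, if_neg (fun h' => h2 ⟨h, h'⟩)]
      norm_num
    · rw [if_neg (fun h' => h2 ⟨h', h⟩), if_pos h]
      norm_num
  have hFle : ∀ x y m n, m ≤ n → F m x y → F n x y := by
    intro x y m n hmn h
    induction n, hmn using Nat.le_induction with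
    | base => exact h
    | succ n hn ih => exact hFmono n x y ih
  obtain ⟨lam, h0, ht, h1, hcv⟩ := cvx X μ E.D u hum hu1
  let P : X → Prop := fun x => (∀ i < E.D, ∃ l : ℝ,
        Tendsto (fun n => (lam n).sum fun t a => a * u t i x) atTop (𝓝 l)) ∧
        ∀ y, Gr.Reachable x y → ∃ n, F n x y
  have hP : ∀ᵐ x ∂μ, P x := by
    filter_upwards [hcv, hex] with x hx1 hx2
    exact ⟨hx1, hx2⟩
  obtain ⟨I, hIm, hIae, hIP, hIinv⟩ := E.exists_invariant hqi' hP
  let mm : ℕ → X → ℝ := fun i x => limUnder atTop (fun n => cc lam n (fun t => u t i x))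
  have hccm : ∀ n i, Measurable (fun x => cc lam n (fun t => u t i x)) := by
    intro n i
    unfold cc Finsupp.sum
    exact Finset.measurable_sum _ fun t _ => (hum t i).const_mul _
  have hmm : ∀ i, Measurable (mm i) := fun i =>
    (StronglyMeasurable.limUnder (fun n => (hccm n i).stronglyMeasurable)).measurable
  have hlim : ∀ x ∈ I, ∀ i < E.dg x,
      Tendsto (fun n => cc lam n (fun t => u t i x)) atTop (𝓝 (mm i x)) := by
    intro x hx i hi
    exact tendsto_nhds_limUnder ((hIP x hx).1 i (lt_of_lt_of_le hi (E.dg_le x)))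
  have hcsum : ∀ n x (S : Finset ℕ), cc lam n (fun t => ∑ i ∈ S, u t i x) =
      ∑ i ∈ S, cc lam n (fun t => u t i x) := by
    intro n x S
    unfold cc Finsupp.sum
    rw [Finset.sum_comm]
    exact Finset.sum_congr rfl fun t _ => Finset.mul_sum _ _ _
  have hfl : ∀ᵐ x ∂μ, FlowAt E mm x := by
    filter_upwards [hIae] with x hx
    refine ⟨?_, ?_, ?_⟩
    · intro i hi
      exact ge_of_tendsto (hlim x hx i hi)
        (cc_ge h0 ht h1 (Eventually.of_forall fun t => hu0 t i x))
    · have h2 : Tendsto (fun n => ∑ i ∈ Finset.range (E.dg x), cc lam n (fun t => u t i x))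
          atTop (𝓝 (∑ i ∈ Finset.range (E.dg x), mm i x)) :=
        tendsto_finsetSum _ fun i hi => hlim x hx i (Finset.mem_range.1 hi)
      refine le_of_tendsto h2 ?_
      have h3 := cc_le h0 ht h1 (v := fun t => ∑ i ∈ Finset.range (E.dg x), u t i x) (C := 1)
        (Eventually.of_forall fun t => hsum t x)
      filter_upwards [h3] with n hn
      rw [← hcsum]
      exact hn
    · intro i hi j hj hjx
      have hy : E.nb i x ∈ I := hIinv x hx _ (E.adj_nb hi)
      obtain ⟨N, hN⟩ := (hIP x hx).2 (E.nb i x) ((hE _ _).2 (E.adj_nb hi)).reachable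
      have h2 := (hlim x hx i hi).add (hlim _ hy j hj)
      have h3 : Tendsto (fun n => cc lam n (fun t => u t i x + u t j (E.nb i x))) atTop (𝓝 1) := by
        apply cc_tendsto h0 ht h1
        apply tendsto_const_nhds.congr'
        filter_upwards [eventually_ge_atTop N] with t ht'
        exact (hrev t x i j hi hj hjx (hFle _ _ N t ht' hN)).symm
      have h4 : (fun n => cc lam n (fun t => u t i x + u t j (E.nb i x))) =
          fun n => cc lam n (fun t => u t i x) + cc lam n (fun t => u t j (E.nb i x)) := by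
        funext n
        exact cc_add n _ _
      rw [h4] at h3
      exact tendsto_nhds_unique h2 h3
  obtain ⟨c, hcm, hc⟩ := flow_main E μ hqi' mm hmm hfl
  refine ⟨c, hcm, hc.mono fun x hx => ?_⟩
  have e1 : (Gr.neighborSet x).ncard = E.dg x := by
    rw [← E.cnt_true x (p := fun _ => True) (fun _ _ => trivial), ← E.ncard_eq]
    congr 1
    ext y
    simp only [SimpleGraph.mem_neighborSet, mem_ofPred_eq, and_true]
    exact hE x y
  have e2 : {y | Gr.Adj x y ∧ c y ≠ c x}.ncard = E.cnt x (fun y => c y ≠ c x) := by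
    rw [← E.ncard_eq]
    congr 1
    ext y
    simp only [mem_ofPred_eq]
    rw [hE x y]
  rw [e1, e2]
  exact hx

end UC2
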