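import Pool.Agent.UC2.Repair

/-! Borel unfriendly colourings of Borel line graphs (MP_99e1f5_lc, wave 7, Q2). -/

open MeasureTheory Filter Topology Set

namespace UC2

open UC

section Loads

variable {X Y : Type*}

/-- the sign of a colour -/
def sg (b : Bool) : ℤ := if b then 1 else -1

theorem sg_cases (b : Bool) : sg b = 1 ∨ sg b = -1 := by
  cases b
  · exact Or.inr rfl
  · exact Or.inl rfl

theorem sg_not (b : Bool) : sg (!b) = - sg b := by
  cases b <;> rfl

theorem sg_mul_self (b : Bool) : sg b * sg b = 1 := by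
  cases b <;> rfl

theorem sg_mul (b b' : Bool) : sg b * sg b' = 1 - 2 * (if b' ≠ b then 1 else 0) := by
  cases b <;> cases b' <;> decide

variable (EF : Y → Finset X)

/-- the load of the node `u` -/
def ld (c : X → Bool) (u : Y) : ℤ := ∑ x ∈ EF u, sg (c x)

theorem ld_abs (c : X → Bool) (u : Y) : |ld EF c u| ≤ ((EF u).card : ℤ) := by
  unfold ld
  refine (Finset.abs_sum_le_sum_abs _ _).trans ?_
  have : ∑ x ∈ EF u, |sg (c x)| = ∑ x ∈ EF u, (1 : ℤ) := by
    apply Finset.sum_congr rfl
    intro x _
    rcases sg_cases (c x) with h | h <;> rw [h] <;> rfl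
  rw [this]
  simp

theorem sg_ld (c : X → Bool) (x : X) (u : Y) : sg (c x) * ld EF c u =
    (EF u).card - 2 * (((EF u).filter (fun y => c y ≠ c x)).card : ℤ) := by
  unfold ld
  rw [Finset.mul_sum, Finset.card_filter]
  push_cast
  rw [Finset.mul_sum, Finset.card_eq_sum_ones]
  push_cast
  rw [← Finset.sum_sub_distrib]
  exact Finset.sum_congr rfl fun y _ => sg_mul _ _

open Classical in
theorem ld_flip (c : X → Bool) (y : X) (u : Y) :
    ld EF (Function.update c y (!(c y))) u = ld EF c u - if y ∈ EF u then 2 * sg (c y) else 0 := by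
  unfold ld
  by_cases h : y ∈ EF u
  · rw [if_pos h, ← Finset.add_sum_erase _ _ h, ← Finset.add_sum_erase (EF u) (fun x => sg (c x)) h]
    rw [Function.update_self, sg_not]
    have : ∑ x ∈ (EF u).erase y, sg (Function.update c y (!(c y)) x) =
        ∑ x ∈ (EF u).erase y, sg (c x) := by
      apply Finset.sum_congr rfl
      intro x hx
      rw [Function.update_of_ne (Finset.ne_of_mem_erase hx)]
    rw [this]
    ring
  · rw [if_neg h, sub_zero]
    apply Finset.sum_congr rfl
    intro x hx
    rw [Function.update_of_ne]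
    rintro rfl
    exact h hx

end Loads

section Tokens

variable {X Y : Type*} (s t : X → Y) (EF : Y → Finset X)

/-- violation, with external loads `a` -/
def Viol (c : X → Bool) (a : Y → ℤ) (x : X) : Prop :=
  2 < sg (c x) * ((ld EF c (s x) + a (s x)) + (ld EF c (t x) + a (t x)))

variable {s t EF}

open Classical in
/-- Insertion of a token: a change of the external load by `2 δ` at `u` can be compensated by
flipping vertices close to `u`, without new violations. -/
theorem token (hst : ∀ x, s x ≠ t x) (hEF : ∀ u x, x ∈ EF u ↔ s x = u ∨ t x = u)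
    (near : ℕ → X → X → Prop) (hn0 : ∀ n x, near n x x)
    (hn1 : ∀ n x y z, (∃ u, x ∈ EF u ∧ y ∈ EF u) → near n y z → near (n + 1) x z) (M : ℤ) :
    ∀ (n : ℕ) (c : X → Bool) (a : Y → ℤ) (u : Y) (δ : ℤ), (δ = 1 ∨ δ = -1) →
      (∀ v, |ld EF c v + a v| ≤ M) → δ * (ld EF c u + a u) + M < n →
      ∃ c' : X → Bool, (∀ z, c' z ≠ c z → ∃ y ∈ EF u, near n y z) ∧
        ∀ z, Viol s t EF c' (fun v => a v + if v = u then 2 * δ else 0) z → Viol s t EF c a z := by
  intro n
  induction n with
  | zero =>
    intro c a u δ hδ hM hlt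
    have h1 := hM u
    rw [abs_le] at h1
    exfalso
    rcases hδ with rfl | rfl <;> push_cast at hlt <;> linarith
  | succ n ih =>
    intro c a u δ hδ hM hlt
    by_cases h : ∃ y ∈ EF u, sg (c y) = δ ∧
        0 < δ * ((ld EF c (s y) + a (s y)) + (ld EF c (t y) + a (t y)))
    · obtain ⟨y, hyu, hyδ, hpos⟩ := h
      obtain ⟨w, hwu, hyw, hsum⟩ : ∃ w, w ≠ u ∧ (∀ v, y ∈ EF v ↔ v = u ∨ v = w) ∧
          (ld EF c (s y) + a (s y)) + (ld EF c (t y) + a (t y)) =
            (ld EF c u + a u) + (ld EF c w + a w) := by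
        rcases (hEF u y).1 hyu with h1 | h1
        · refine ⟨t y, fun h2 => hst y (h1.trans h2.symm), fun v => ?_, by rw [h1]⟩
          rw [hEF, h1]
          constructor <;> rintro (h | h)
          · exact Or.inl h.symm
          · exact Or.inr h.symm
          · exact Or.inl h.symm
          · exact Or.inr h.symm
        · refine ⟨s y, fun h2 => hst y (h2.trans h1.symm), fun v => ?_, by rw [h1]; ring⟩
          rw [hEF, h1]
          constructor <;> rintro (h | h)
          · exact Or.inr h.symm
          · exact Or.inl h.symm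
          · exact Or.inr h.symm
          · exact Or.inl h.symm
      rw [hsum] at hpos
      let c1 : X → Bool := Function.update c y (!(c y))
      let a1 : Y → ℤ := fun v => (a v + if v = u then 2 * δ else 0) + if v = w then 2 * δ else 0
      have hL : ∀ v, ld EF c1 v + a1 v = ld EF c v + a v := by
        intro v
        simp only [c1, a1]
        rw [ld_flip, hyδ]
        by_cases h1 : v = u
        · have h2 : v ≠ w := fun h2 => hwu (h2.symm.trans h1)
          rw [if_pos ((hyw v).2 (Or.inl h1)), if_pos h1, if_neg h2]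
          ring
        · by_cases h2 : v = w
          · rw [if_pos ((hyw v).2 (Or.inr h2)), if_neg h1, if_pos h2]
            ring
          · rw [if_neg (fun h3 => ((hyw v).1 h3).elim h1 h2), if_neg h1, if_neg h2]
            ring
      obtain ⟨c', hc1, hc2⟩ := ih c1 a1 w (-δ) (by rcases hδ with rfl | rfl <;> simp)
        (fun v => by rw [hL]; exact hM v) (by
          rw [hL]
          push_cast at hlt
          nlinarith)
      refine ⟨c', ?_, ?_⟩
      · intro z hz
        by_cases h1 : c' z = c1 z
        · have h2 : c1 z ≠ c z := fun h2 => hz (h1.trans h2)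
          have h3 : z = y := by
            by_contra h3
            exact h2 (Function.update_of_ne h3 _ _)
          rw [h3]
          exact ⟨y, hyu, hn0 _ _⟩
        · obtain ⟨y', hy', h2⟩ := hc1 z h1
          exact ⟨y, hyu, hn1 n y y' z ⟨w, (hyw w).2 (Or.inr rfl), hy'⟩ h2⟩
      · intro z hz
        have h1 : (fun v => a v + if v = u then 2 * δ else 0) =
            fun v => a1 v + if v = w then 2 * (-δ) else 0 := by
          funext v
          simp only [a1]
          by_cases h2 : v = w
          · rw [if_pos h2, if_pos h2]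
            ring
          · rw [if_neg h2, if_neg h2]
            ring
        rw [h1] at hz
        have h2 := hc2 z hz
        unfold Viol at h2 ⊢
        rw [hL, hL] at h2
        by_cases h3 : z = y
        · rw [h3] at h2
          simp only [c1, Function.update_self] at h2
          rw [sg_not, hyδ, hsum] at h2
          linarith
        · simp only [c1] at h2
          rw [Function.update_of_ne h3] at h2
          exact h2
    · push Not at h
      refine ⟨c, fun z hz => absurd rfl hz, ?_⟩
      intro z hz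
      unfold Viol at hz ⊢
      by_cases hzu : z ∈ EF u
      · have key : (ld EF c (s z) + (a (s z) + if s z = u then 2 * δ else 0)) +
            (ld EF c (t z) + (a (t z) + if t z = u then 2 * δ else 0)) =
            ((ld EF c (s z) + a (s z)) + (ld EF c (t z) + a (t z))) + 2 * δ := by
          rcases (hEF u z).1 hzu with h1 | h1
          · rw [if_pos h1, if_neg (fun h2 => hst z (h1.trans h2.symm))]
            ring
          · rw [if_pos h1, if_neg (fun h2 => hst z (h2.trans h1.symm))]
            ring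
        simp only at hz
        rw [key] at hz
        have h1 := h z hzu
        generalize (ld EF c (s z) + a (s z)) + (ld EF c (t z) + a (t z)) = S at hz h1 ⊢
        rcases sg_cases (c z) with h2 | h2 <;> rcases hδ with rfl | rfl
        · have h3 := h1 h2
          rw [h2] at hz
          linarith
        · rw [h2] at hz ⊢
          linarith
        · rw [h2] at hz ⊢
          linarith
        · have h3 := h1 h2
          rw [h2] at hz
          linarith
      · have h1 : s z ≠ u := fun h1 => hzu ((hEF u z).2 (Or.inl h1))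
        have h2 : t z ≠ u := fun h2 => hzu ((hEF u z).2 (Or.inr h2))
        simp only at hz
        rw [if_neg h1, if_neg h2, add_zero, add_zero] at hz
        exact hz

end Tokens

variable {X Y : Type*} [MeasurableSpace X]

/-- `G` is the line graph with end points `s` and `t` -/
structure IsLG (G : EG X) (s t : X → Y) : Prop where
  ne : ∀ x, s x ≠ t x
  simp' : ∀ x y, (s y = s x ∨ t y = s x) → (s y = t x ∨ t y = t x) → y = x
  adj : ∀ x y, G.Adj x y ↔ x ≠ y ∧ ((s y = s x ∨ t y = s x) ∨ (s y = t x ∨ t y = t x))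

theorem line_bad {G : EG X} {s t : X → Y} (h : IsLG G s t) {EF : Y → Finset X}
    (hEF : ∀ u x, x ∈ EF u ↔ s x = u ∨ t x = u) (c : X → Bool) (x : X) :
    bad G c x ↔ 2 < sg (c x) * (ld EF c (s x) + ld EF c (t x)) := by
  classical
  have hxs : x ∈ EF (s x) := (hEF _ _).2 (Or.inl rfl)
  have hxt : x ∈ EF (t x) := (hEF _ _).2 (Or.inr rfl)
  have hdisj : Disjoint ((EF (s x)).erase x) ((EF (t x)).erase x) := by
    rw [Finset.disjoint_left]
    intro y hy hy'
    rw [Finset.mem_erase, hEF] at hy hy'
    exact hy.1 (h.simp' x y hy.2 hy'.2)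
  have hcnt : ∀ p : X → Prop, G.cnt x p = (((EF (s x)).erase x).filter p).card +
      (((EF (t x)).erase x).filter p).card := by
    intro p
    rw [← G.ncard_eq, ← Finset.card_union_of_disjoint
      (Finset.disjoint_filter_filter hdisj), ← Set.ncard_coe_finset]
    congr 1
    ext y
    simp only [mem_ofPred_eq, Finset.coe_union, Finset.coe_filter, mem_union, Finset.mem_erase,
      h.adj, hEF]
    constructor
    · rintro ⟨⟨h1, h2 | h2⟩, h3⟩
      · exact Or.inl ⟨⟨Ne.symm h1, h2⟩, h3⟩
      · exact Or.inr ⟨⟨Ne.symm h1, h2⟩, h3⟩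
    · rintro (⟨⟨h1, h2⟩, h3⟩ | ⟨⟨h1, h2⟩, h3⟩)
      · exact ⟨⟨Ne.symm h1, Or.inl h2⟩, h3⟩
      · exact ⟨⟨Ne.symm h1, Or.inr h2⟩, h3⟩
  have hdg : G.dg x + 2 = (EF (s x)).card + (EF (t x)).card := by
    have h1 : G.dg x = G.cnt x (fun _ => True) := (G.cnt_true x fun _ _ => trivial).symm
    rw [h1, hcnt]
    have h2 : ((EF (s x)).erase x).card + 1 = (EF (s x)).card :=
      Finset.card_erase_add_one hxs
    have h3 : ((EF (t x)).erase x).card + 1 = (EF (t x)).card :=
      Finset.card_erase_add_one hxt
    simp only [Finset.filter_true]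
    omega
  have hopp : G.cnt x (fun y => c y ≠ c x) = ((EF (s x)).filter (fun y => c y ≠ c x)).card +
      ((EF (t x)).filter (fun y => c y ≠ c x)).card := by
    rw [hcnt]
    congr 1 <;>
    · apply congrArg Finset.card
      ext y
      simp only [Finset.mem_filter, Finset.mem_erase]
      constructor
      · rintro ⟨⟨_, h1⟩, h2⟩
        exact ⟨h1, h2⟩
      · rintro ⟨h1, h2⟩
        exact ⟨⟨fun h3 => h2 (by rw [h3]), h1⟩, h2⟩
  have hdg' : (G.dg x : ℤ) + 2 = (EF (s x)).card + (EF (t x)).card := by exact_mod_cast hdg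
  have hs := sg_ld EF c x (s x)
  have ht := sg_ld EF c x (t x)
  have hsum : sg (c x) * (ld EF c (s x) + ld EF c (t x)) =
      (G.dg x : ℤ) + 2 - 2 * (G.cnt x (fun y => c y ≠ c x) : ℤ) := by
    rw [mul_add, hs, ht, hopp, hdg']
    push_cast
    ring
  unfold bad
  rw [hsum]
  constructor
  · intro h1
    have h2 : (2 * (G.cnt x (fun y => c y ≠ c x)) : ℤ) < G.dg x := by exact_mod_cast h1
    linarith
  · intro h1
    have h2 : (2 * (G.cnt x (fun y => c y ≠ c x)) : ℤ) < G.dg x := by linarith
    exact_mod_cast h2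

theorem line_repair {G : EG X} {s t : X → Y} (h : IsLG G s t) (c : X → Bool) (x : X)
    (hb : bad G c x) : ∃ c' : X → Bool, (∀ z, c' z ≠ c z → Bd G (2 * G.D + 10) x z) ∧
      ¬ bad G c' x ∧ ∀ z, bad G c' z → bad G c z := by
  classical
  have hfin : ∀ u : Y, {x | s x = u ∨ t x = u}.Finite ∧
      {x | s x = u ∨ t x = u}.ncard ≤ G.D + 1 := by
    intro u
    by_cases he : ∃ y, s y = u ∨ t y = u
    · obtain ⟨y, hy⟩ := he
      have hsub : {x | s x = u ∨ t x = u} ⊆ insert y {z | G.Adj y z ∧ True} := by
        intro z hz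
        by_cases hzy : z = y
        · exact Or.inl hzy
        · refine Or.inr ⟨(h.adj y z).2 ⟨fun h1 => hzy h1.symm, ?_⟩, trivial⟩
          rcases hy with rfl | rfl
          · exact Or.inl hz
          · exact Or.inr hz
      have hf : {z | G.Adj y z ∧ True}.Finite := by
        have : {z | G.Adj y z ∧ True} ⊆ (fun i => G.nb i y) '' {i | i < G.dg y} := by
          rintro z ⟨⟨i, hi, rfl⟩, _⟩
          exact ⟨i, hi, rfl⟩
        exact ((Set.finite_lt_nat _).image _).subset this
      refine ⟨(hf.insert y).subset hsub, (Set.ncard_le_ncard hsub (hf.insert y)).trans ?_⟩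
      refine (Set.ncard_insert_le y _).trans ?_
      rw [G.ncard_eq y (fun _ => True)]
      have := (G.cnt_le y (fun _ => True)).trans (G.dg_le y)
      omega
    · have : {x | s x = u ∨ t x = u} = ∅ := by
        ext z
        simp only [mem_ofPred_eq, mem_empty_iff_false, iff_false]
        exact fun hz => he ⟨z, hz⟩
      rw [this]
      exact ⟨Set.finite_empty, by simp⟩
  let EF : Y → Finset X := fun u => (hfin u).1.toFinset
  have hEF : ∀ u x, x ∈ EF u ↔ s x = u ∨ t x = u := by
    intro u x
    simp only [EF, Set.Finite.mem_toFinset, mem_ofPred_eq]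
  have hcard : ∀ u, (EF u).card ≤ G.D + 1 := by
    intro u
    have := (hfin u).2
    rw [Set.ncard_eq_toFinset_card _ (hfin u).1] at this
    exact this
  have hnear : ∀ n x y z, (∃ u, x ∈ EF u ∧ y ∈ EF u) → Bd G n y z → Bd G (n + 1) x z := by
    rintro n x y z ⟨u, hx, hy⟩ hyz
    by_cases hxy : x = y
    · rw [hxy]
      exact hyz.mono (by omega)
    · have hadj : G.Adj x y := by
        rw [h.adj]
        refine ⟨hxy, ?_⟩
        rw [hEF] at hx hy
        rcases hx with rfl | rfl
        · exact Or.inl hy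
        · exact Or.inr hy
      have := (Bd.of_adj hadj).trans hyz
      exact this.mono (by omega)
  let ε : ℤ := sg (c x)
  have hε : ε = 1 ∨ ε = -1 := sg_cases _
  let c1 : X → Bool := Function.update c x (!(c x))
  let a1 : Y → ℤ := fun v => (if v = s x then 2 * ε else 0) + if v = t x then 2 * ε else 0
  have hL1 : ∀ v, ld EF c1 v + a1 v = ld EF c v := by
    intro v
    simp only [c1, a1]
    rw [ld_flip]
    by_cases h1 : v = s x
    · have h2 : v ≠ t x := fun h2 => h.ne x (h1.symm.trans h2)
      rw [if_pos ((hEF v x).2 (Or.inl h1.symm)), if_pos h1, if_neg h2]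
      ring
    · by_cases h2 : v = t x
      · rw [if_pos ((hEF v x).2 (Or.inr h2.symm)), if_neg h1, if_pos h2]
        ring
      · rw [if_neg (fun h3 => ((hEF v x).1 h3).elim (fun h => h1 h.symm) (fun h => h2 h.symm)),
          if_neg h1, if_neg h2]
        ring
  have hV1 : ∀ z, Viol s t EF c1 a1 z → z ≠ x ∧ bad G c z := by
    intro z hz
    unfold Viol at hz
    rw [hL1, hL1] at hz
    have hb' := (line_bad h hEF c x).1 hb
    by_cases hzx : z = x
    · exfalso
      rw [hzx] at hz
      simp only [c1, Function.update_self] at hz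
      rw [sg_not] at hz
      linarith
    · refine ⟨hzx, (line_bad h hEF c z).2 ?_⟩
      simp only [c1] at hz
      rw [Function.update_of_ne hzx] at hz
      exact hz
  have hM1 : ∀ v, |ld EF c1 v + a1 v| ≤ (G.D : ℤ) + 3 := by
    intro v
    rw [hL1]
    refine (ld_abs EF c v).trans ?_
    have : ((EF v).card : ℤ) ≤ G.D + 1 := by exact_mod_cast hcard v
    linarith
  obtain ⟨c2, h21, h22⟩ := token h.ne hEF (Bd G) (fun n x => Bd.refl n x) hnear ((G.D : ℤ) + 3)
    (2 * G.D + 7) c1 a1 (s x) (-ε) (by rcases hε with h1 | h1 <;> rw [h1] <;> simp) hM1 (by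
      have h1 := hM1 (s x)
      rw [abs_le] at h1
      push_cast
      rcases hε with h2 | h2 <;> rw [h2] <;> linarith)
  let a2 : Y → ℤ := fun v => a1 v + if v = s x then 2 * (-ε) else 0
  have ha2 : ∀ v, a2 v = if v = t x then 2 * ε else 0 := by
    intro v
    simp only [a2, a1]
    by_cases h1 : v = s x
    · rw [if_pos h1, if_pos h1]
      ring
    · rw [if_neg h1, if_neg h1]
      ring
  have hM2 : ∀ v, |ld EF c2 v + a2 v| ≤ (G.D : ℤ) + 3 := by
    intro v
    refine (abs_add_le _ _).trans ?_
    have h1 := ld_abs EF c2 v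
    have h2 : ((EF v).card : ℤ) ≤ G.D + 1 := by exact_mod_cast hcard v
    have h3 : |a2 v| ≤ 2 := by
      rw [ha2]
      split_ifs
      · rcases hε with h4 | h4 <;> rw [h4] <;> decide
      · decide
    linarith
  obtain ⟨c3, h31, h32⟩ := token h.ne hEF (Bd G) (fun n x => Bd.refl n x) hnear ((G.D : ℤ) + 3)
    (2 * G.D + 7) c2 a2 (t x) (-ε) (by rcases hε with h1 | h1 <;> rw [h1] <;> simp) hM2 (by
      have h1 := hM2 (t x)
      rw [abs_le] at h1
      push_cast
      rcases hε with h2 | h2 <;> rw [h2] <;> linarith)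
  have ha3 : (fun v => a2 v + if v = t x then 2 * (-ε) else 0) = fun _ => 0 := by
    funext v
    rw [ha2]
    by_cases h1 : v = t x
    · rw [if_pos h1, if_pos h1]
      ring
    · rw [if_neg h1, if_neg h1]
      ring
  rw [ha3] at h32
  have hfinal : ∀ z, bad G c3 z → z ≠ x ∧ bad G c z := by
    intro z hz
    apply hV1
    apply h22
    apply h32
    unfold Viol
    rw [add_zero, add_zero]
    exact (line_bad h hEF c3 z).1 hz
  refine ⟨c3, ?_, fun hx => (hfinal x hx).1 rfl, fun z hz => (hfinal z hz).2⟩
  intro z hz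
  have hxs : x ∈ EF (s x) := (hEF _ _).2 (Or.inl rfl)
  have hxt : x ∈ EF (t x) := (hEF _ _).2 (Or.inr rfl)
  by_cases h1 : c3 z = c2 z
  · by_cases h2 : c2 z = c1 z
    · have h3 : z = x := by
        by_contra h3
        apply hz
        rw [h1, h2]
        exact Function.update_of_ne h3 _ _
      rw [h3]
      exact Bd.refl _ _
    · obtain ⟨y, hy, h3⟩ := h21 z h2
      exact (hnear _ x y z ⟨s x, hxs, hy⟩ h3).mono (by omega)
  · obtain ⟨y, hy, h3⟩ := h31 z h1
    exact (hnear _ x y z ⟨t x, hxt, hy⟩ h3).mono (by omega)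

/-- Every Borel line graph of bounded degree has a Borel unfriendly colouring. -/
theorem line_main [StandardBorelSpace X] (Gr : SimpleGraph X)
    (hG : MeasurableSet {p : X × X | Gr.Adj p.1 p.2}) (D : ℕ)
    (hD : ∀ x, (Gr.neighborSet x).Finite ∧ (Gr.neighborSet x).ncard ≤ D)
    {V : Type*} (H : SimpleGraph V) (e : Gr ≃g H.lineGraph) :
    ∃ c : X → Bool, Measurable c ∧ ∀ x,
      (Gr.neighborSet x).ncard ≤ 2 * {y | Gr.Adj x y ∧ c y ≠ c x}.ncard := by
  classical
  obtain ⟨E, hE⟩ := ln X Gr hG D hD
  have hrep : ∀ x : X, ∃ p : V × V, ((e x : H.edgeSet) : Sym2 V) = s(p.1, p.2) := by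
    intro x
    induction' hq : ((e x : H.edgeSet) : Sym2 V) using Sym2.ind with a b
    exact ⟨(a, b), rfl⟩
  choose p hp using hrep
  have hmem : ∀ x v, v ∈ ((e x : H.edgeSet) : Sym2 V) ↔ (p x).1 = v ∨ (p x).2 = v := by
    intro x v
    rw [hp, Sym2.mem_iff]
    constructor <;> rintro (h | h)
    · exact Or.inl h.symm
    · exact Or.inr h.symm
    · exact Or.inl h.symm
    · exact Or.inr h.symm
  have hne : ∀ x, (p x).1 ≠ (p x).2 := by
    intro x
    have h1 : ((e x : H.edgeSet) : Sym2 V) ∈ H.edgeSet := (e x).2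
    rw [hp, SimpleGraph.mem_edgeSet] at h1
    exact h1.ne
  have hLG : IsLG E (fun x => (p x).1) (fun x => (p x).2) := by
    refine ⟨hne, ?_, ?_⟩
    · intro x y h1 h2
      apply e.injective
      apply Subtype.ext
      have h3 : (p x).1 ∈ ((e y : H.edgeSet) : Sym2 V) := (hmem y _).2 h1
      have h4 : (p x).2 ∈ ((e y : H.edgeSet) : Sym2 V) := (hmem y _).2 h2
      rw [hp x]
      exact (Sym2.mem_and_mem_iff (hne x)).1 ⟨h3, h4⟩
    · intro x y
      rw [← hE, ← e.map_adj_iff, SimpleGraph.lineGraph_adj_iff_exists]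
      constructor
      · rintro ⟨h1, v, h2, h3⟩
        refine ⟨fun h4 => h1 (by rw [h4]), ?_⟩
        rcases (hmem x v).1 h2 with rfl | rfl
        · exact Or.inl ((hmem y _).1 h3)
        · exact Or.inr ((hmem y _).1 h3)
      · rintro ⟨h1, h2 | h2⟩
        · exact ⟨fun h4 => h1 (e.injective h4), (p x).1, (hmem x _).2 (Or.inl rfl),
            (hmem y _).2 h2⟩
        · exact ⟨fun h4 => h1 (e.injective h4), (p x).2, (hmem x _).2 (Or.inr rfl),
            (hmem y _).2 h2⟩
  obtain ⟨c, hcm, hc⟩ := repair_main E (2 * E.D + 10) fun c x hb => line_repair hLG c x hb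
  refine ⟨c, hcm, fun x => ?_⟩
  have e1 : (Gr.neighborSet x).ncard = E.dg x := by
    rw [← E.cnt_true x (p := fun _ => True) (fun _ _ => trivial), ← E.ncard_eq]
    congr 1
    ext y
    simp only [SimpleGraph.mem_neighborSet, mem_ofPred_eq, and_true]
    exact hE x y
  have e2 : {y | Gr.Adj x y ∧ c y ≠ c x}.ncard = E.cnt x (fun y => c y ≠ c x) := by
    rw [← E.ncard_eq]
    congr 1
    ext y
    simp only [mem_ofPred_eq]
    rw [hE x y]
  rw [e1, e2]
  exact not_lt.1 (hc x)

end UC2
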