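import Pool.Agent.UC2.Hyp

/-! The local repair principle (MP_99e1f5_lc, wave 7, Q2): if every vertex which violates the
unfriendly condition can be repaired by a modification of the colouring in a ball of bounded radius
which creates no new violation, then there is a Borel unfriendly colouring. -/

open MeasureTheory Filter Topology Set

namespace UC2

open UC

variable {X : Type*} [MeasurableSpace X] (G : EG X)

/-- `y` is at distance at most `n` from `x` -/
def Bd (n : ℕ) (x y : X) : Prop := ∃ w : List ℕ, w.length ≤ n ∧ ok G w x ∧ wk G w x = y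

theorem wk_append (w w' : List ℕ) (x : X) : wk G (w ++ w') x = wk G w' (wk G w x) := by
  induction w generalizing x with
  | nil => rfl
  | cons i w ih => exact ih _

theorem ok_append (w w' : List ℕ) (x : X) :
    ok G (w ++ w') x ↔ ok G w x ∧ ok G w' (wk G w x) := by
  induction w generalizing x with
  | nil => exact ⟨fun h => ⟨trivial, h⟩, fun h => h.2⟩
  | cons i w ih =>
    show (i < G.dg x ∧ ok G (w ++ w') (G.nb i x)) ↔
      (i < G.dg x ∧ ok G w (G.nb i x)) ∧ ok G w' (wk G w (G.nb i x))
    rw [ih, and_assoc]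

variable {G}

theorem Bd.refl (n : ℕ) (x : X) : Bd G n x x := ⟨[], Nat.zero_le _, trivial, rfl⟩

theorem Bd.trans {m n : ℕ} {x y z : X} (h : Bd G m x y) (h' : Bd G n y z) :
    Bd G (m + n) x z := by
  obtain ⟨w, hw, hw1, rfl⟩ := h
  obtain ⟨w', hw', hw1', rfl⟩ := h'
  refine ⟨w ++ w', ?_, (ok_append G w w' x).2 ⟨hw1, hw1'⟩, wk_append G w w' x⟩
  rw [List.length_append]
  omega

theorem Bd.mono {m n : ℕ} (hmn : m ≤ n) {x y : X} (h : Bd G m x y) : Bd G n x y := by
  obtain ⟨w, hw, h⟩ := h
  exact ⟨w, hw.trans hmn, h⟩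

theorem Bd.of_adj {x y : X} (h : G.Adj x y) : Bd G 1 x y := by
  obtain ⟨i, hi, rfl⟩ := h
  exact ⟨[i], le_rfl, ⟨hi, trivial⟩, rfl⟩

theorem Bd.symm {n : ℕ} {x y : X} (h : Bd G n x y) : Bd G n y x := by
  obtain ⟨w, hw, hw1, rfl⟩ := h
  have key : ∀ (w : List ℕ) (x : X), ok G w x → Bd G w.length (wk G w x) x := by
    intro w
    induction w with
    | nil => intro x _; exact Bd.refl _ _
    | cons i w ih =>
      intro x hx
      have h1 := ih (G.nb i x) hx.2
      have h2 := Bd.of_adj (G.adj_symm (G.adj_nb hx.1))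
      exact h1.trans h2
  exact (key w x hw1).mono hw

variable (G)

/-- the unfriendly condition fails at `x` -/
def bad (c : X → Bool) (x : X) : Prop := 2 * G.cnt x (fun y => c y ≠ c x) < G.dg x

variable {G}

theorem bad_congr {c c' : X → Bool} {x : X} (h0 : c x = c' x) (h : ∀ y, G.Adj x y → c y = c' y) :
    bad G c x ↔ bad G c' x := by
  unfold bad
  have : G.cnt x (fun y => c y ≠ c x) = G.cnt x (fun y => c' y ≠ c' x) := by
    apply G.cnt_congr
    intro y hy
    rw [h0, h y hy]
  rw [this]

variable (G)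

/-- `z` is in the set described by `F` and `x` -/
def FS (F : List (List ℕ)) (x z : X) : Prop := ∃ w ∈ F, ok G w x ∧ wk G w x = z

open Classical in
/-- the flipped colouring -/
noncomputable def fl (c : X → Bool) (F : List (List ℕ)) (x z : X) : Bool :=
  if FS G F x z then !(c z) else c z

theorem meas_FS [StandardBorelSpace X] (F : List (List ℕ)) :
    MeasurableSet {p : X × X | FS G F p.1 p.2} := by
  have : {p : X × X | FS G F p.1 p.2} = ⋃ w : List ℕ, ({p : X × X | w ∈ F} ∩
      (Prod.fst ⁻¹' {x | ok G w x} ∩ {p : X × X | wk G w p.1 = p.2})) := by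
    ext p
    simp only [FS, mem_ofPred_eq, mem_iUnion, mem_inter_iff, mem_preimage]
  rw [this]
  refine MeasurableSet.iUnion fun w => (MeasurableSet.const _).inter
    ((measurable_fst (meas_ok G w)).inter ?_)
  exact measurableSet_eq_fun ((meas_wk G w).comp measurable_fst) measurable_snd

theorem meas_fl [StandardBorelSpace X] {c : X → Bool} (hc : Measurable c) (F : List (List ℕ))
    {h : X → X} (hh : Measurable h) : Measurable (fun x => fl G c F x (h x)) := by
  classical
  have hS : MeasurableSet {x | FS G F x (h x)} :=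
    (measurable_id.prodMk hh) (meas_FS G F)
  exact Measurable.ite hS ((measurable_from_top (f := fun b : Bool => !b)).comp (hc.comp hh))
    (hc.comp hh)

theorem meas_bad_fl [StandardBorelSpace X] {c : X → Bool} (hc : Measurable c)
    (F : List (List ℕ)) (w' : List ℕ) :
    MeasurableSet {x | bad G (fl G c F x) (wk G w' x)} := by
  unfold bad
  have h1 : Measurable (fun x => G.cnt (wk G w' x)
      (fun y => fl G c F x y ≠ fl G c F x (wk G w' x))) := by
    apply G.measurable_cnt_prop (wk G w') (meas_wk G w')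
      (fun x y => fl G c F x y ≠ fl G c F x (wk G w' x))
    intro i
    exact (measurableSet_eq_fun (meas_fl G hc F ((G.nb_meas i).comp (meas_wk G w')))
      (meas_fl G hc F (meas_wk G w'))).compl
  exact measurableSet_lt ((measurable_of_countable (fun n : ℕ => 2 * n)).comp h1)
    (G.dg_meas.comp (meas_wk G w'))

theorem meas_bad {c : X → Bool} (hc : Measurable c) : MeasurableSet {x | bad G c x} := by
  unfold bad
  have h1 : Measurable (fun x => G.cnt x (fun y => c y ≠ c x)) :=
    G.measurable_cnt (fun x y => c y ≠ c x) fun i =>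
      (measurableSet_eq_fun (hc.comp (G.nb_meas i)) hc).compl
  exact measurableSet_lt ((measurable_of_countable (fun n : ℕ => 2 * n)).comp h1) G.dg_meas

theorem finite_Bd (n : ℕ) : ∃ N : ℕ, ∀ x, {y | Bd G n x y}.Finite ∧ {y | Bd G n x y}.ncard ≤ N := by
  let S : Set (List (Fin G.D)) := {l | l.length ≤ n}
  have hS : S.Finite := List.finite_length_le (Fin G.D) n
  refine ⟨S.ncard, fun x => ?_⟩
  have hsub : {y | Bd G n x y} ⊆ (fun l : List (Fin G.D) => wk G (l.map Fin.val) x) '' S := by
    rintro y ⟨w, hw, hok, rfl⟩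
    have hlt : ∀ (w : List ℕ) (x : X), ok G w x → ∀ i ∈ w, i < G.D := by
      intro w
      induction w with
      | nil => intro x _ i hi; exact absurd hi List.not_mem_nil
      | cons j w ih =>
        intro x hx i hi
        rcases List.mem_cons.1 hi with rfl | hi
        · exact lt_of_lt_of_le hx.1 (G.dg_le x)
        · exact ih _ hx.2 i hi
    refine ⟨w.pmap (fun i hi => (⟨i, hi⟩ : Fin G.D)) (hlt w x hok), ?_, ?_⟩
    · show (w.pmap _ _).length ≤ n
      rw [List.length_pmap]
      exact hw
    · have : (w.pmap (fun i hi => (⟨i, hi⟩ : Fin G.D)) (hlt w x hok)).map Fin.val = w := by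
        rw [List.map_pmap]
        simp
      simp only [this]
  exact ⟨(hS.image _).subset hsub, (Set.ncard_le_ncard hsub (hS.image _)).trans
    (Set.ncard_image_le hS)⟩

variable {G}

theorem repair_step [StandardBorelSpace X] (r : ℕ)
    (hrep : ∀ (c : X → Bool) (x : X), bad G c x → ∃ c' : X → Bool,
      (∀ z, c' z ≠ c z → Bd G r x z) ∧ ¬ bad G c' x ∧ ∀ z, bad G c' z → bad G c z)
    (A : Set X) (hA : MeasurableSet A) (hsep : ∀ x ∈ A, ∀ y ∈ A, Bd G (2 * r + 2) x y → x = y)
    (c : X → Bool) (hc : Measurable c) :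
    ∃ c' : X → Bool, Measurable c' ∧ (∀ z, bad G c' z → bad G c z) ∧ ∀ x ∈ A, ¬ bad G c' x := by
  classical
  let dec : ℕ → List (List ℕ) := fun k => Denumerable.ofNat (List (List ℕ)) k
  let P : ℕ → X → Prop := fun k x => (x ∈ A ∧ bad G c x) ∧ ((∀ w ∈ dec k, w.length ≤ r) ∧
    (¬ bad G (fl G c (dec k) x) x ∧
      ∀ w', ok G w' x → bad G (fl G c (dec k) x) (wk G w' x) → bad G c (wk G w' x)))
  have hP : ∀ k, MeasurableSet {x | P k x} := by
    intro k
    refine (hA.inter (meas_bad G hc)).inter ((MeasurableSet.const _).inter ?_)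
    refine (meas_bad_fl G hc (dec k) []).compl.inter ?_
    have : {x | ∀ w', ok G w' x → bad G (fl G c (dec k) x) (wk G w' x) → bad G c (wk G w' x)} =
        ⋂ w', ({x | ok G w' x}ᶜ ∪ ({x | bad G (fl G c (dec k) x) (wk G w' x)}ᶜ ∪
          wk G w' ⁻¹' {x | bad G c x})) := by
      ext x
      simp only [mem_ofPred_eq, mem_iInter, mem_union, mem_compl_iff, mem_preimage,
        imp_iff_not_or]
    show MeasurableSet
      {x | ∀ w', ok G w' x → bad G (fl G c (dec k) x) (wk G w' x) → bad G c (wk G w' x)}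
    rw [this]
    exact MeasurableSet.iInter fun w' => (meas_ok G w').compl.union
      ((meas_bad_fl G hc (dec k) w').compl.union (meas_wk G w' (meas_bad G hc)))
  obtain ⟨g, hg, hgP⟩ := exists_meas_select P hP
  let A' : Set X := {x | ∃ k, P k x}
  have hA' : MeasurableSet A' := by
    have : A' = ⋃ k, {x | P k x} := by
      ext x
      simp only [A', mem_ofPred_eq, mem_iUnion]
    rw [this]
    exact MeasurableSet.iUnion hP
  have hA'A : ∀ x ∈ A', x ∈ A := fun x hx => (hgP x hx).1.1
  -- existence of a code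
  have hex : ∀ x ∈ A, bad G c x → x ∈ A' := by
    intro x hx hb
    obtain ⟨c1, h1, h2, h3⟩ := hrep c x hb
    have hT : {z | c1 z ≠ c z}.Finite := by
      obtain ⟨N, hN⟩ := finite_Bd G r
      exact (hN x).1.subset fun z hz => h1 z hz
    choose W hW using h1
    let F : List (List ℕ) := hT.toFinset.attach.toList.map
      (fun z => W z.1 (hT.mem_toFinset.1 z.2))
    have hF : ∀ w, w ∈ F ↔ ∃ z, ∃ hz : c1 z ≠ c z, W z hz = w := by
      intro w
      simp only [F, List.mem_map, Finset.mem_toList, Finset.mem_attach, true_and]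
      constructor
      · rintro ⟨z, hz⟩
        exact ⟨z.1, hT.mem_toFinset.1 z.2, hz⟩
      · rintro ⟨z, hz, hw⟩
        exact ⟨⟨z, hT.mem_toFinset.2 hz⟩, hw⟩
    have hfl : fl G c F x = c1 := by
      funext z
      unfold fl
      by_cases hz : c1 z = c z
      · rw [if_neg, hz]
        rintro ⟨w, hw, hok, hwk⟩
        obtain ⟨z', hz', rfl⟩ := (hF w).1 hw
        rw [(hW z' hz').2.2] at hwk
        rw [hwk] at hz'
        exact hz' hz
      · rw [if_pos]
        · revert hz
          cases c1 z <;> cases c z <;> simp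
        · exact ⟨W z hz, (hF _).2 ⟨z, hz, rfl⟩, (hW z hz).2.1, (hW z hz).2.2⟩
    refine ⟨Encodable.encode F, ⟨hx, hb⟩, ?_⟩
    have hd : dec (Encodable.encode F) = F := Denumerable.ofNat_encode F
    rw [hd, hfl]
    refine ⟨?_, h2, fun w' _ => h3 _⟩
    intro w hw
    obtain ⟨z, hz, rfl⟩ := (hF w).1 hw
    exact (hW z hz).1
  -- the new colouring
  let Q : X → Prop := fun z => ∃ w'', ok G w'' z ∧ wk G w'' z ∈ A' ∧
    FS G (dec (g (wk G w'' z))) (wk G w'' z) z
  have hQ : MeasurableSet {z | Q z} := by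
    have : {z | Q z} = ⋃ w'', ⋃ k, ({z | ok G w'' z} ∩ (wk G w'' ⁻¹' A' ∩
        ({z | g (wk G w'' z) = k} ∩
          (fun z => (wk G w'' z, z)) ⁻¹' {p : X × X | FS G (dec k) p.1 p.2}))) := by
      ext z
      simp only [Q, mem_ofPred_eq, mem_iUnion, mem_inter_iff, mem_preimage]
      constructor
      · rintro ⟨w'', h1, h2, h3⟩
        exact ⟨w'', _, h1, h2, rfl, h3⟩
      · rintro ⟨w'', k, h1, h2, rfl, h3⟩
        exact ⟨w'', h1, h2, h3⟩
    rw [this]
    refine MeasurableSet.iUnion fun w'' => MeasurableSet.iUnion fun k =>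
      (meas_ok G w'').inter ((meas_wk G w'' hA').inter (MeasurableSet.inter ?_ ?_))
    · exact measurableSet_eq_fun (hg.comp (meas_wk G w'')) measurable_const
    · exact ((meas_wk G w'').prodMk measurable_id) (meas_FS G (dec k))
  let c' : X → Bool := fun z => if Q z then !(c z) else c z
  have hc' : Measurable c' :=
    Measurable.ite hQ ((measurable_from_top (f := fun b : Bool => !b)).comp hc) hc
  have hFSB : ∀ x ∈ A', ∀ z, FS G (dec (g x)) x z → Bd G r x z := by
    rintro x hx z ⟨w, hw, hok, hwk⟩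
    exact ⟨w, (hgP x hx).2.1 w hw, hok, hwk⟩
  have hQ' : ∀ z, Q z → ∃ x ∈ A', FS G (dec (g x)) x z ∧ Bd G r x z := by
    rintro z ⟨w'', h1, h2, h3⟩
    exact ⟨_, h2, h3, hFSB _ h2 z h3⟩
  have hnear : ∀ x ∈ A', ∀ y, Bd G (r + 2) x y → c' y = fl G c (dec (g x)) x y := by
    intro x hx y hxy
    have : Q y ↔ FS G (dec (g x)) x y := by
      constructor
      · intro h
        obtain ⟨x', hx', h1, h2⟩ := hQ' y h
        have h3 : Bd G (2 * r + 2) x x' := (hxy.trans h2.symm).mono (by omega)
        have h4 := hsep x (hA'A x hx) x' (hA'A x' hx') h3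
        rw [h4]
        exact h1
      · intro h
        obtain ⟨w'', -, h1, h2⟩ := hxy.symm
        refine ⟨w'', h1, ?_, ?_⟩
        · rw [h2]
          exact hx
        · rw [h2]
          exact h
    show (if Q y then !(c y) else c y) = _
    unfold fl
    by_cases h : Q y
    · rw [if_pos h, if_pos (this.1 h)]
    · rw [if_neg h, if_neg (fun h' => h (this.2 h'))]
  have hbadnear : ∀ x ∈ A', ∀ z, Bd G (r + 1) x z →
      (bad G c' z ↔ bad G (fl G c (dec (g x)) x) z) := by
    intro x hx z hxz
    apply bad_congr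
    · exact hnear x hx z (hxz.mono (by omega))
    · intro y hy
      exact hnear x hx y (hxz.trans (Bd.of_adj hy))
  refine ⟨c', hc', ?_, ?_⟩
  · intro z hz
    by_cases h : ∃ x ∈ A', Bd G (r + 1) x z
    · obtain ⟨x, hx, hxz⟩ := h
      have h1 := (hbadnear x hx z hxz).1 hz
      obtain ⟨w', -, h2, rfl⟩ := hxz
      exact (hgP x hx).2.2.2 w' h2 h1
    · push Not at h
      have hcc : ∀ y, Bd G 1 z y → c' y = c y := by
        intro y hy
        show (if Q y then !(c y) else c y) = _
        rw [if_neg]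
        intro hq
        obtain ⟨x, hx, -, h2⟩ := hQ' y hq
        exact h x hx (h2.trans hy.symm)
      have h1 : bad G c' z ↔ bad G c z :=
        bad_congr (hcc z (Bd.refl 1 z)) fun y hy => hcc y (Bd.of_adj hy)
      exact h1.1 hz
  · intro x hx hb
    by_cases h : bad G c x
    · have hx' := hex x hx h
      exact (hgP x hx').2.2.1 ((hbadnear x hx' x (Bd.refl _ x)).1 hb)
    · -- monotonicity
      apply h
      by_cases h' : ∃ y ∈ A', Bd G (r + 1) y x
      · obtain ⟨y, hy, hyx⟩ := h'
        have h1 := (hbadnear y hy x hyx).1 hb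
        obtain ⟨w', -, h2, rfl⟩ := hyx
        exact (hgP y hy).2.2.2 w' h2 h1
      · push Not at h'
        have hcc : ∀ y, Bd G 1 x y → c' y = c y := by
          intro y hy
          show (if Q y then !(c y) else c y) = _
          rw [if_neg]
          intro hq
          obtain ⟨x', hx', -, h2⟩ := hQ' y hq
          exact h' x' hx' (h2.trans hy.symm)
        have h1 : bad G c' x ↔ bad G c x :=
          bad_congr (hcc x (Bd.refl 1 x)) fun y hy => hcc y (Bd.of_adj hy)
        exact h1.1 hb

/-- a Borel colouring with finitely many colours in which close vertices have different colours -/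
theorem far_col [StandardBorelSpace X] (G : EG X) (n : ℕ) : ∃ (q : ℕ) (κ : X → ℕ),
    Measurable κ ∧ (∀ x, κ x < q) ∧ ∀ x y, Bd G n x y → x ≠ y → κ x ≠ κ y := by
  let Gr : SimpleGraph X :=
    { Adj := fun x y => x ≠ y ∧ Bd G n x y
      symm := ⟨fun x y h => ⟨h.1.symm, h.2.symm⟩⟩
      loopless := ⟨fun x h => h.1 rfl⟩ }
  have hm : MeasurableSet {p : X × X | Gr.Adj p.1 p.2} := by
    have : {p : X × X | Gr.Adj p.1 p.2} = {p : X × X | p.1 = p.2}ᶜ ∩
        ⋃ w : List ℕ, ({p : X × X | w.length ≤ n} ∩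
          (Prod.fst ⁻¹' {x | ok G w x} ∩ {p : X × X | wk G w p.1 = p.2})) := by
      ext p
      simp only [mem_ofPred_eq, mem_iUnion, mem_inter_iff, mem_preimage, mem_compl_iff]
      rfl
    rw [this]
    refine (measurableSet_eq_fun measurable_fst measurable_snd).compl.inter
      (MeasurableSet.iUnion fun w => (MeasurableSet.const _).inter
        ((measurable_fst (meas_ok G w)).inter ?_))
    exact measurableSet_eq_fun ((meas_wk G w).comp measurable_fst) measurable_snd
  obtain ⟨N, hN⟩ := finite_Bd G n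
  have hb : ∀ x, (Gr.neighborSet x).Finite ∧ (Gr.neighborSet x).ncard ≤ N := by
    intro x
    have hsub : Gr.neighborSet x ⊆ {y | Bd G n x y} := fun y hy => hy.2
    exact ⟨(hN x).1.subset hsub, (Set.ncard_le_ncard hsub (hN x).1).trans (hN x).2⟩
  obtain ⟨E, hE⟩ := ln X Gr hm N hb
  obtain ⟨q, κ, h1, h2, h3⟩ := col X E
  exact ⟨q, κ, h1, h2, fun x y hxy hne => h3 x y ((hE x y).1 ⟨hne, hxy⟩)⟩

/-- The local repair principle. -/
theorem repair_main [StandardBorelSpace X] (G : EG X) (r : ℕ)
    (hrep : ∀ (c : X → Bool) (x : X), bad G c x → ∃ c' : X → Bool,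
      (∀ z, c' z ≠ c z → Bd G r x z) ∧ ¬ bad G c' x ∧ ∀ z, bad G c' z → bad G c z) :
    ∃ c : X → Bool, Measurable c ∧ ∀ x, ¬ bad G c x := by
  obtain ⟨q, κ, hκm, hκq, hκ⟩ := far_col G (2 * r + 2)
  have key : ∀ i, ∃ c : X → Bool, Measurable c ∧ ∀ x, κ x < i → ¬ bad G c x := by
    intro i
    induction i with
    | zero => exact ⟨fun _ => true, measurable_const, fun x hx => absurd hx (Nat.not_lt_zero _)⟩
    | succ i ih =>
      obtain ⟨c, hc, h⟩ := ih
      obtain ⟨c', hc', h1, h2⟩ := repair_step r hrep {x | κ x = i}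
        (measurableSet_eq_fun hκm measurable_const)
        (fun x hx y hy hxy => by
          by_contra hne
          exact hκ x y hxy hne (hx.trans hy.symm)) c hc
      refine ⟨c', hc', fun x hx => ?_⟩
      rcases Nat.lt_succ_iff_lt_or_eq.1 hx with h3 | h3
      · exact fun hb => h x h3 (h1 x hb)
      · exact h2 x h3
  obtain ⟨c, hc, h⟩ := key q
  exact ⟨c, hc, fun x => h x (hκq x)⟩

end UC2
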